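import Pool.Agent.Y662.STU.Uni
import Pool.Agent.Results.MP_e333c6_mp.SturmianNotDiffeo

/-! # Independence of the phase and the symmetry between `α` and `1 - α` -/

set_option autoImplicit false

open Filter Topology Polynomial MeasureTheory Pool.Agent.Helper434.PSCplx

namespace Pool.Agent.Y662.STU

open Pool.Agent.H695R3.ST
open Pool.Agent.Results.MP_e333c6_mp.SturmianNotDiffeo (gauss digit TailEquiv)

/-- the floor function is constant on the right of every point -/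
theorem floor_right (x : ℝ) : ∀ᶠ t in 𝓝[>] (0 : ℝ), ⌊x + t⌋ = ⌊x⌋ := by
  have h1 : (x : ℝ) < ⌊x⌋ + 1 := Int.lt_floor_add_one x
  have h2 : ∀ᶠ t in 𝓝[>] (0 : ℝ), t < ⌊x⌋ + 1 - x :=
    mem_nhdsWithin_of_mem_nhds (gt_mem_nhds (by linarith))
  filter_upwards [h2, self_mem_nhdsWithin] with t ht ht0
  rw [Set.mem_Ioi] at ht0
  rw [Int.floor_eq_iff]
  constructor
  · have := Int.floor_le x
    linarith
  · linarith

/-- a finite window of the potential is constant on the right of every phase -/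
theorem window_right {lam α : ℝ} (h0 : 0 < α) (h1 : α < 1) (ω : ℝ) (j : ℤ) (R : ℕ) :
    ∃ δ : ℝ, 0 < δ ∧ ∀ t : ℝ, 0 < t → t < δ → ∀ n : ℤ, j ≤ n → n < j + R →
      pot lam α (ω + t) n = pot lam α ω n := by
  have h : ∀ᶠ t in 𝓝[>] (0 : ℝ), ∀ m ∈ Finset.Icc j (j + R),
      ⌊(ω + (m : ℝ) * α) + t⌋ = ⌊ω + (m : ℝ) * α⌋ := by
    rw [Filter.eventually_all_finset]
    exact fun m _ => floor_right _
  rw [eventually_nhdsWithin_iff, Metric.eventually_nhds_iff] at h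
  obtain ⟨δ, hδ, h⟩ := h
  refine ⟨δ, hδ, fun t t0 tδ n hn1 hn2 => ?_⟩
  have h2 := h (y := t) (by rw [Real.dist_eq, sub_zero, abs_of_pos t0]; exact tδ) t0
  rw [pot_floor h0 h1, pot_floor h0 h1]
  have e1 := h2 (n + 1) (Finset.mem_Icc.2 ⟨by omega, by omega⟩)
  have e2 := h2 n (Finset.mem_Icc.2 ⟨by omega, by omega⟩)
  have a1 : ω + t + ((n + 1 : ℤ) : ℝ) * α = ω + ((n + 1 : ℤ) : ℝ) * α + t := by ring
  have a2 : ω + t + (n : ℝ) * α = ω + (n : ℝ) * α + t := by ring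
  rw [a1, a2, e1, e2]

/-- the orbit of every phase comes close to every phase, on the right -/
theorem orbit_dense {α : ℝ} (hα : Irrational α) (ω₁ ω₂ : ℝ) {δ : ℝ} (hδ : 0 < δ) :
    ∃ (s k : ℤ) (t : ℝ), 0 < t ∧ t < δ ∧ ω₂ + s * α = ω₁ + t + k := by
  have hd : Dense (AddSubgroup.closure {α, 1} : Set ℝ) := by
    rw [dense_addSubgroupClosure_pair_iff, div_one]
    exact hα
  obtain ⟨z, hz, hzc⟩ := hd.exists_between (show ω₁ - ω₂ < ω₁ - ω₂ + δ by linarith)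
  obtain ⟨m, k, hmk⟩ := AddSubgroup.mem_closure_pair.1 hz
  rw [zsmul_eq_mul, zsmul_eq_mul, mul_one] at hmk
  refine ⟨m, -k, z - (ω₁ - ω₂), by linarith [hzc.1], by linarith [hzc.2], ?_⟩
  push_cast
  linarith

/-- every window at the phase `ω₁` occurs at the phase `ω₂` -/
theorem window_phase {lam α : ℝ} (hα : Irrational α) (h0 : 0 < α) (h1 : α < 1) (ω₁ ω₂ : ℝ)
    (R : ℕ) (j : ℤ) :
    ∃ s : ℤ, ∀ n, j ≤ n → n < j + R → pot lam α ω₂ (n + s) = pot lam α ω₁ n := by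
  obtain ⟨δ, hδ, h⟩ := window_right (lam := lam) h0 h1 ω₁ j R
  obtain ⟨s, k, t, t0, t1, hst⟩ := orbit_dense hα ω₁ ω₂ hδ
  refine ⟨s, fun n hn1 hn2 => ?_⟩
  rw [← h t t0 t1 n hn1 hn2]
  unfold pot
  have e : ω₂ + ((n + s : ℤ) : ℝ) * α = ω₁ + t + n * α + (k : ℝ) := by
    push_cast
    linarith
  rw [e, Int.fract_add_intCast]

/-- the inclusion of spectra for different phases -/
theorem phase_sub {lam α : ℝ} (hα : Irrational α) (h0 : 0 < α) (h1 : α < 1) {ω₁ ω₂ : ℝ}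
    {H₁ H₂ : L2 →L[ℂ] L2} (e1 : IsSchr (pot lam α ω₁) H₁) (e2 : IsSchr (pot lam α ω₂) H₂) :
    spectrum ℝ H₁ ⊆ spectrum ℝ H₂ := by
  intro E hE
  have hcl : IsClosed (spectrum ℝ H₂) := spectrum.isClosed H₂
  rw [← hcl.closure_eq, Metric.mem_closure_iff]
  intro ε hε
  obtain ⟨R, hR⟩ := exists_nat_gt (16 / (ε / 2) ^ 2 + 2)
  have hp : 0 < 16 / (ε / 2) ^ 2 := by positivity
  have hR2 : 2 ≤ R := by
    have : (2 : ℝ) ≤ R := by linarith
    exact_mod_cast this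
  obtain ⟨E', hE', hd⟩ := transfer e1 e2 (schr_sa (pot_abs lam α ω₁) e1)
    (schr_sa (pot_abs lam α ω₂) e2) (half_pos hε) hR2 (by linarith)
    (fun j => window_phase hα h0 h1 ω₁ ω₂ R j) hE
  refine ⟨E', hE', ?_⟩
  rw [Real.dist_eq]
  linarith

/-- **The spectrum does not depend on the phase.** -/
theorem phase_eq {lam α : ℝ} (hα : Irrational α) (h0 : 0 < α) (h1 : α < 1) {ω₁ ω₂ : ℝ}
    {H₁ H₂ : L2 →L[ℂ] L2} (e1 : IsSchr (pot lam α ω₁) H₁) (e2 : IsSchr (pot lam α ω₂) H₂) :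
    spectrum ℝ H₁ = spectrum ℝ H₂ :=
  (phase_sub hα h0 h1 e1 e2).antisymm (phase_sub hα h0 h1 e2 e1)

/-! ### the mirror symmetry -/

/-- the vector `(-1)^n ψ(n)` -/
noncomputable def flipFun (ψ : ℤ → ℂ) (n : ℤ) : ℂ := (-1 : ℂ) ^ n * ψ n

theorem norm_flipFun (ψ : ℤ → ℂ) (n : ℤ) : ‖flipFun ψ n‖ = ‖ψ n‖ := by
  unfold flipFun
  rw [norm_mul, norm_zpow, norm_neg, norm_one, one_zpow, one_mul]

theorem flip_mem (ψ : L2) : Memℓp (E := fun _ : ℤ => ℂ) (flipFun ψ) 2 := by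
  apply memℓp_gen
  have h2 : (2 : ENNReal).toReal = ((2 : ℕ) : ℝ) := by norm_num
  simp only [h2, Real.rpow_natCast, norm_flipFun]
  exact (hasSum_sq ψ).summable

/-- the vector `(-1)^n ψ(n)` -/
noncomputable def flipVec (ψ : L2) : L2 := ⟨flipFun ψ, flip_mem ψ⟩

theorem flipVec_apply (ψ : L2) (n : ℤ) : flipVec ψ n = (-1 : ℂ) ^ n * ψ n := rfl

theorem norm_eq_of {φ ψ : L2} (h : ∀ n, ‖φ n‖ = ‖ψ n‖) : ‖φ‖ = ‖ψ‖ := by
  have h1 := hasSum_sq φ
  simp only [h] at h1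
  have h2 := h1.unique (hasSum_sq ψ)
  exact (pow_left_inj₀ (norm_nonneg _) (norm_nonneg _) two_ne_zero).1 h2

/-- the symmetry of the spectra -/
theorem mirror {V V' : ℤ → ℝ} {lam : ℝ} (hV : ∀ n, V' n = lam - V n) {H H' : L2 →L[ℂ] L2}
    (hH : IsSchr V H) (hH' : IsSchr V' H') (hs : IsSelfAdjoint H) (hs' : IsSelfAdjoint H')
    {E : ℝ} (hE : E ∈ spectrum ℝ H) : lam - E ∈ spectrum ℝ H' := by
  have hcl : IsClosed (spectrum ℝ H') := spectrum.isClosed H'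
  rw [← hcl.closure_eq, Metric.mem_closure_iff]
  intro ε hε
  obtain ⟨ψ, hψ0, hψ⟩ := weyl_fwd hs hE (half_pos hε)
  have hn : ‖flipVec ψ‖ = ‖ψ‖ := norm_eq_of fun n => norm_flipFun ψ n
  have hn0 : flipVec ψ ≠ 0 := by
    intro h
    rw [h, norm_zero] at hn
    exact hψ0 (norm_eq_zero.1 hn.symm)
  have hm1 : (-1 : ℂ) ≠ 0 := by norm_num
  have h1 : ‖H' (flipVec ψ) - ((lam - E : ℝ) : ℂ) • flipVec ψ‖ = ‖H ψ - (E : ℂ) • ψ‖ := by
    refine norm_eq_of fun n => ?_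
    rw [lp.coeFn_sub, Pi.sub_apply, lp.coeFn_smul, Pi.smul_apply, smul_eq_mul, hH',
      lp.coeFn_sub, Pi.sub_apply, lp.coeFn_smul, Pi.smul_apply, smul_eq_mul, hH, flipVec_apply,
      flipVec_apply, flipVec_apply, zpow_add_one₀ hm1, zpow_sub_one₀ hm1, hV]
    have e : (-1 : ℂ) ^ n * -1 * ψ (n + 1) + (-1 : ℂ) ^ n * (-1)⁻¹ * ψ (n - 1) +
        ((lam - V n : ℝ) : ℂ) * ((-1 : ℂ) ^ n * ψ n) -
        ((lam - E : ℝ) : ℂ) * ((-1 : ℂ) ^ n * ψ n) =
        (-1 : ℂ) ^ n * (-(ψ (n + 1) + ψ (n - 1) + (V n : ℂ) * ψ n - (E : ℂ) * ψ n)) := by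
      have h3 : (-1 : ℂ)⁻¹ = -1 := by norm_num
      rw [h3]
      push_cast
      ring
    rw [e, norm_mul, norm_zpow, norm_neg, norm_one, one_zpow, one_mul, norm_neg]
  obtain ⟨E', hE', hd⟩ := weyl_bwd hs' hn0 (h1.le.trans (hψ.trans_eq (by rw [hn])))
  refine ⟨E', hE', ?_⟩
  rw [Real.dist_eq]
  linarith

/-- the potentials at `α` and `1 - α` -/
theorem pot_mirror {lam α ω : ℝ} (h0 : 0 < α) (h1 : α < 1)
    (hω : ∀ m k : ℤ, ω ≠ m * α + k) (n : ℤ) :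
    pot lam (1 - α) ω n = lam - pot lam α (-ω) n := by
  have key : ∀ m : ℤ, (⌊ω + (m : ℝ) * (1 - α)⌋ : ℝ) = m - ⌊-ω + (m : ℝ) * α⌋ - 1 := by
    intro m
    have h2 : ⌊ω + (m : ℝ) * (1 - α)⌋ = m - ⌊-ω + (m : ℝ) * α⌋ - 1 := by
      have h3 := Int.floor_le (-ω + (m : ℝ) * α)
      have h4 := Int.lt_floor_add_one (-ω + (m : ℝ) * α)
      have h5 : -ω + (m : ℝ) * α ≠ ⌊-ω + (m : ℝ) * α⌋ := by
        intro h
        apply hω m (-⌊-ω + (m : ℝ) * α⌋)
        push_cast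
        linarith
      have h6 := lt_of_le_of_ne h3 h5.symm
      rw [Int.floor_eq_iff]
      push_cast
      constructor <;> linarith
    rw [h2]
    push_cast
    ring
  rw [pot_floor (by linarith) (by linarith), pot_floor h0 h1, key, key]
  push_cast
  ring

theorem exists_phase (α : ℝ) : ∃ ω : ℝ, ∀ m k : ℤ, ω ≠ m * α + k := by
  have hc : (Set.range fun u : ℤ × ℤ => (u.1 : ℝ) * α + u.2).Countable :=
    Set.countable_range _
  obtain ⟨ω, hω⟩ := (hc.dense_compl ℝ).nonempty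
  exact ⟨ω, fun m k h => hω ⟨(m, k), h.symm⟩⟩

/-- **The spectrum at `1 - α`.** -/
theorem mirror_eq {lam α : ℝ} (hα : Irrational α) (h0 : 0 < α) (h1 : α < 1) {ω₁ ω₂ : ℝ}
    {H₁ H₂ : L2 →L[ℂ] L2} (e1 : IsSchr (pot lam α ω₁) H₁)
    (e2 : IsSchr (pot lam (1 - α) ω₂) H₂) (E : ℝ) :
    E ∈ spectrum ℝ H₂ ↔ lam - E ∈ spectrum ℝ H₁ := by
  obtain ⟨ω, hω⟩ := exists_phase α
  obtain ⟨K₁, k1, s1⟩ := exists_schr (pot_abs lam α (-ω))
  obtain ⟨K₂, k2, s2⟩ := exists_schr (pot_abs lam (1 - α) ω)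
  have hα' : Irrational (1 - α) := by
    have := hα.intCast_sub 1
    push_cast at this
    exact this
  rw [phase_eq hα h0 h1 e1 k1, phase_eq hα' (by linarith) (by linarith) e2 k2]
  have hV := fun n => pot_mirror (lam := lam) h0 h1 hω n
  constructor
  · exact fun h => mirror (fun n => by rw [hV]; ring) k2 k1 s2 s1 h
  · intro h
    have := mirror (fun n => hV n) k1 k2 s1 s2 h
    rwa [sub_sub_cancel] at this

/-! ### `α` and `1 - α` are tail-equivalent -/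

theorem gauss_mirror {α : ℝ} (h0 : 1 / 2 < α) (h1 : α < 1) :
    gauss (1 - α) = gauss (gauss α) := by
  have hg : gauss α = (1 - α) / α := by
    unfold gauss
    have hf : ⌊1 / α⌋ = 1 := by
      rw [Int.floor_eq_iff]
      push_cast
      constructor
      · rw [le_div_iff₀ (by linarith)]; linarith
      · rw [div_lt_iff₀ (by linarith)]; linarith
    rw [Int.fract, hf]
    push_cast
    field_simp
  have hα : α ≠ 0 := by linarith
  have hα' : 1 - α ≠ 0 := by linarith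
  rw [hg]
  unfold gauss
  have e : 1 / (1 - α) = 1 / ((1 - α) / α) + ((1 : ℤ) : ℝ) := by
    push_cast
    field_simp
    ring
  rw [e, Int.fract_add_intCast]

theorem tail_mirror_gt {α : ℝ} (h0 : 1 / 2 < α) (h1 : α < 1) : TailEquiv α (1 - α) := by
  refine ⟨-1, 3, by norm_num, by norm_num, fun i hi => ?_⟩
  unfold digit
  have e1 : (((i : ℤ) + -1).toNat) - 1 = (i - 3) + 1 := by omega
  have e2 : i - 1 = (i - 3) + 1 + 1 := by omega
  rw [e1, e2, Function.iterate_succ_apply, Function.iterate_succ_apply,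
    Function.iterate_succ_apply, gauss_mirror h0 h1]

theorem tail_mirror_lt {α : ℝ} (h0 : 0 < α) (h1 : α < 1 / 2) : TailEquiv α (1 - α) := by
  refine ⟨1, 2, by norm_num, by norm_num, fun i hi => ?_⟩
  unfold digit
  have e1 : (((i : ℤ) + 1).toNat) - 1 = (i - 2) + 1 + 1 := by omega
  have e2 : i - 1 = (i - 2) + 1 := by omega
  have h2 := gauss_mirror (α := 1 - α) (by linarith) (by linarith)
  rw [sub_sub_cancel] at h2
  rw [e1, e2, Function.iterate_succ_apply, Function.iterate_succ_apply,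
    Function.iterate_succ_apply, h2]

/-- `1 - α` is tail-equivalent to `α`. -/
theorem tail_mirror {α : ℝ} (hα : Irrational α) (h0 : 0 < α) (h1 : α < 1) :
    TailEquiv α (1 - α) := by
  rcases lt_trichotomy α (1 / 2) with h | h | h
  · exact tail_mirror_lt h0 h
  · exfalso
    apply hα
    exact ⟨1 / 2, by rw [h]; push_cast; norm_num⟩
  · exact tail_mirror_gt h h1

theorem tail_refl (α : ℝ) : TailEquiv α α :=
  ⟨0, 1, le_rfl, by norm_num, fun i _ => by rw [add_zero, Int.toNat_natCast]⟩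

end Pool.Agent.Y662.STU
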