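import Mathlib
import Pool.Agent.H695R3.ST.Near

/-! # Large clusters of a set on the line -/

set_option autoImplicit false

open Filter Topology Polynomial MeasureTheory

namespace Pool.Agent.Y662.STU

open Pool.Agent.H695R3.ST

/-- `x` and `y` can be joined by points of `A` with steps at most `ε` -/
def Chain (A : Set ℝ) (ε : ℝ) (x y : ℝ) : Prop :=
  Relation.ReflTransGen (fun a b => a ∈ A ∧ b ∈ A ∧ |a - b| ≤ ε) x y

/-- `N` clusters of diameter at least `r` at the scale `ε`, which remain apart at the scale `s` -/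
def Clusters (A : Set ℝ) (ε s r : ℝ) (N : ℕ) : Prop :=
  ∃ x y : Fin N → ℝ, (∀ i, x i ∈ A ∧ y i ∈ A ∧ r ≤ |x i - y i| ∧ Chain A ε (x i) (y i)) ∧
    ∀ i j, i ≠ j → ¬ Chain A s (x i) (x j)

theorem Chain.mono {A : Set ℝ} {ε ε' x y : ℝ} (h : Chain A ε x y) (hε : ε ≤ ε') :
    Chain A ε' x y := by
  induction h with
  | refl => exact Relation.ReflTransGen.refl
  | tail hb hbc ih => exact ih.tail ⟨hbc.1, hbc.2.1, hbc.2.2.trans hε⟩

theorem Chain.symm {A : Set ℝ} {ε x y : ℝ} (h : Chain A ε x y) : Chain A ε y x := by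
  induction h with
  | refl => exact Relation.ReflTransGen.refl
  | tail hb hbc ih =>
    exact Relation.ReflTransGen.head ⟨hbc.2.1, hbc.1, by rw [abs_sub_comm]; exact hbc.2.2⟩ ih

theorem Chain.map {A B : Set ℝ} {f : ℝ → ℝ} {ε ε' : ℝ}
    (hf : ∀ a ∈ A, ∀ b ∈ A, |a - b| ≤ ε → |f a - f b| ≤ ε') (hm : ∀ a ∈ A, f a ∈ B) {x y : ℝ}
    (h : Chain A ε x y) : Chain B ε' (f x) (f y) := by
  induction h with
  | refl => exact Relation.ReflTransGen.refl
  | tail hb hbc ih =>
    exact ih.tail ⟨hm _ hbc.1, hm _ hbc.2.1, hf _ hbc.1 _ hbc.2.1 hbc.2.2⟩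

theorem Clusters.map {A B : Set ℝ} {f g : ℝ → ℝ} {ε ε' s s' r r' : ℝ} {N : ℕ}
    (hf : ∀ a ∈ A, f a ∈ B) (hg : ∀ b ∈ B, g b ∈ A) (hgf : ∀ a ∈ A, g (f a) = a)
    (h1 : ∀ a ∈ A, ∀ b ∈ A, |a - b| ≤ ε → |f a - f b| ≤ ε')
    (h2 : ∀ a ∈ B, ∀ b ∈ B, |a - b| ≤ s' → |g a - g b| ≤ s)
    (h3 : ∀ a ∈ B, ∀ b ∈ B, |a - b| < r' → |g a - g b| < r)
    (h : Clusters A ε s r N) : Clusters B ε' s' r' N := by
  obtain ⟨x, y, h4, h5⟩ := h
  refine ⟨fun i => f (x i), fun i => f (y i), fun i =>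
    ⟨hf _ (h4 i).1, hf _ (h4 i).2.1, ?_, ?_⟩, fun i j hij hc => ?_⟩
  · by_contra hlt
    rw [not_le] at hlt
    have h6 := h3 _ (hf _ (h4 i).1) _ (hf _ (h4 i).2.1) hlt
    rw [hgf _ (h4 i).1, hgf _ (h4 i).2.1] at h6
    exact absurd (h4 i).2.2.1 (not_le.2 h6)
  · exact (h4 i).2.2.2.map h1 hf
  · have h6 := hc.map (f := g) (B := A) h2 hg
    rw [hgf _ (h4 i).1, hgf _ (h4 j).1] at h6
    exact h5 i j hij h6

theorem Chain.cover {A : Set ℝ} {ε x y : ℝ} (hε : 0 ≤ ε) (hx : x ∈ A) (h : Chain A ε x y)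
    {t : ℝ} (ht : t ∈ Set.uIcc x y) : ∃ w ∈ A, Chain A ε x w ∧ |t - w| ≤ ε := by
  induction h with
  | refl =>
    rw [Set.uIcc_self, Set.mem_singleton_iff] at ht
    exact ⟨x, hx, Relation.ReflTransGen.refl, by rw [ht, sub_self, abs_zero]; exact hε⟩
  | @tail b c hb hbc ih =>
    by_cases h1 : t ∈ Set.uIcc x b
    · exact ih h1
    · refine ⟨b, hbc.1, hb, ?_⟩
      have h2 : t ∈ Set.uIcc b c :=
        (Set.uIcc_subset_uIcc_union_uIcc (a := x) (b := b) (c := c) ht).resolve_left h1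
      have h3 := Set.abs_sub_left_of_mem_uIcc h2
      have h4 := hbc.2.2
      rw [abs_sub_comm] at h4
      exact h3.trans h4

theorem Chain.cross {A : Set ℝ} {s l u x y : ℝ} (hA : ∀ a ∈ A, a ≤ l ∨ u ≤ a)
    (hs : s < u - l) (h : Chain A s x y) (hx : x ≤ l) : y ≤ l := by
  induction h with
  | refl => exact hx
  | tail hb hbc ih =>
    rcases hA _ hbc.2.1 with h1 | h1
    · exact h1
    · have := abs_le.1 hbc.2.2
      linarith

theorem chain_path {A S : Set ℝ} {η : ℝ} (hη : 0 < η) (hS : ∀ E ∈ S, ∃ a ∈ A, |E - a| ≤ η)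
    {a b x y : ℝ} (hab : Set.uIcc a b ⊆ S) (hx : x ∈ A) (hy : y ∈ A) (hxa : |x - a| ≤ η)
    (hyb : |y - b| ≤ η) : Chain A (3 * η) x y := by
  have key : ∀ n : ℕ, ∀ b y : ℝ, |b - a| ≤ n * η → Set.uIcc a b ⊆ S → y ∈ A → |y - b| ≤ η →
      Chain A (3 * η) x y := by
    intro n
    induction n with
    | zero =>
      intro b y hb _ hy hyb
      refine Relation.ReflTransGen.single ⟨hx, hy, ?_⟩
      rw [Nat.cast_zero, zero_mul] at hb
      have h1 : b = a := by
        have := abs_nonpos_iff.1 hb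
        linarith
      rw [h1] at hyb
      have e : x - y = (x - a) - (y - a) := by ring
      rw [e]
      exact (abs_sub _ _).trans (by linarith)
    | succ n ih =>
      intro b y hb hab hy hyb
      have hn : (0 : ℝ) < n + 1 := by positivity
      set b' : ℝ := a + (b - a) * (n / (n + 1)) with hb'
      have e1 : b - b' = (b - a) * (1 / (n + 1)) := by
        rw [hb']
        field_simp
        ring
      have e2 : b' - a = (b - a) * (n / (n + 1)) := by rw [hb']; ring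
      have h1 : |b - b'| ≤ η := by
        rw [e1, abs_mul, abs_of_pos (by positivity : (0 : ℝ) < 1 / (n + 1))]
        push_cast at hb
        rw [mul_one_div, div_le_iff₀ hn]
        linarith
      have h2 : |b' - a| ≤ n * η := by
        rw [e2, abs_mul, abs_of_nonneg (by positivity : (0 : ℝ) ≤ n / (n + 1))]
        push_cast at hb
        rw [mul_div_assoc', div_le_iff₀ hn]
        nlinarith [Nat.cast_nonneg (α := ℝ) n]
      have hmem : b' ∈ Set.uIcc a b := by
        have h3 : (n : ℝ) / (n + 1) ≤ 1 := by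
          rw [div_le_one hn]; linarith
        have h4 : (0 : ℝ) ≤ n / (n + 1) := by positivity
        rcases le_total a b with h | h
        · rw [Set.uIcc_of_le h, Set.mem_Icc]
          constructor <;> rw [hb'] <;> nlinarith
        · rw [Set.uIcc_of_ge h, Set.mem_Icc]
          constructor <;> rw [hb'] <;> nlinarith
      have hsub : Set.uIcc a b' ⊆ Set.uIcc a b :=
        Set.uIcc_subset_uIcc_left hmem
      obtain ⟨y', hy'A, hy'⟩ := hS b' (hab hmem)
      have hc := ih b' y' h2 (hsub.trans hab) hy'A (by rw [abs_sub_comm]; exact hy')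
      refine hc.tail ⟨hy'A, hy, ?_⟩
      have e : y' - y = -(b' - y') + (b' - b) + (b - y) := by ring
      rw [e]
      refine (abs_add_le _ _).trans ?_
      have h5 : |-(b' - y') + (b' - b)| ≤ |b' - y'| + |b - b'| := by
        refine (abs_add_le _ _).trans ?_
        rw [abs_neg, abs_sub_comm b' b]
      have h6 : |b - y| ≤ η := by rw [abs_sub_comm]; exact hyb
      linarith
  obtain ⟨n, hn⟩ := exists_nat_ge (|b - a| / η)
  rw [div_le_iff₀ hη] at hn
  exact key n b y hn hab hy hyb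

/-- the number of large clusters is at most the number of bands -/
theorem upper {p : ℝ[X]} (hp : 1 ≤ p.natDegree) (X : Finset ℝ) {η ε s r : ℝ} (hη : 0 < η)
    (hε : 0 ≤ ε) (hεs : ε ≤ s) (hηs : 3 * η ≤ s) (hr : X.card * (2 * (η + ε)) < r) {A : Set ℝ}
    (h1 : ∀ E : ℝ, (p.eval E) ^ 2 ≤ 4 → ∃ E' ∈ A, |E - E'| ≤ η)
    (h2 : ∀ E ∈ A, (∃ E' : ℝ, (p.eval E') ^ 2 ≤ 4 ∧ |E - E'| ≤ η) ∨ ∃ x ∈ X, |E - x| ≤ η)
    {N : ℕ} (hN : Clusters A ε s r N) : N ≤ p.natDegree := by
  classical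
  obtain ⟨x, y, hxy, hsep⟩ := hN
  -- a point near a band in every cluster
  have hband : ∀ i, ∃ w ∈ A, Chain A ε (x i) w ∧ ∃ E : ℝ, (p.eval E) ^ 2 ≤ 4 ∧ |w - E| ≤ η := by
    intro i
    by_contra hcon
    push Not at hcon
    have hcov : Set.uIcc (x i) (y i) ⊆ ⋃ z ∈ X, Set.Icc (z - (η + ε)) (z + (η + ε)) := by
      intro t ht
      obtain ⟨w, hwA, hw1, hw2⟩ := (hxy i).2.2.2.cover hε (hxy i).1 ht
      rcases h2 w hwA with ⟨E, hE1, hE2⟩ | ⟨z, hz, hz2⟩
      · exact absurd hE2 (not_le.2 (hcon w hwA hw1 E hE1))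
      · simp only [Set.mem_iUnion]
        refine ⟨z, hz, ?_⟩
        rw [Set.mem_Icc]
        have e1 := abs_le.1 hw2
        have e2 := abs_le.1 hz2
        constructor <;> linarith [e1.1, e1.2, e2.1, e2.2]
    have hvol := measure_mono (μ := volume) hcov
    have h3 : volume (⋃ z ∈ X, Set.Icc (z - (η + ε)) (z + (η + ε))) ≤
        ∑ z ∈ X, volume (Set.Icc (z - (η + ε)) (z + (η + ε))) := measure_biUnion_finset_le _ _
    have h4 : ∑ z ∈ X, volume (Set.Icc (z - (η + ε)) (z + (η + ε))) =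
        ENNReal.ofReal (X.card * (2 * (η + ε))) := by
      simp only [Real.volume_Icc]
      have h5 : ∀ z : ℝ, z + (η + ε) - (z - (η + ε)) = 2 * (η + ε) := by
        intro z
        ring
      simp only [h5, Finset.sum_const, nsmul_eq_mul]
      rw [ENNReal.ofReal_mul (Nat.cast_nonneg _), ENNReal.ofReal_natCast]
    rw [Real.volume_interval] at hvol
    have h5 := hvol.trans (h3.trans h4.le)
    rw [ENNReal.ofReal_le_ofReal_iff (by positivity), abs_sub_comm] at h5
    have h6 := (hxy i).2.2.1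
    linarith
  choose w hwA hwc E hE1 hE2 using hband
  have hsepE : ∀ i j, i ≠ j → ∃ m ∈ Set.uIcc (E i) (E j), 4 < (p.eval m) ^ 2 := by
    intro i j hij
    by_contra hcon
    push Not at hcon
    apply hsep i j hij
    have hc : Chain A (3 * η) (w i) (w j) :=
      chain_path (S := {t | (p.eval t) ^ 2 ≤ 4}) hη h1 (a := E i) (b := E j)
        (fun t ht => hcon t ht) (hwA i) (hwA j) (hE2 i) (hE2 j)
    exact ((hwc i).mono hεs).trans ((hc.mono hηs).trans ((hwc j).mono hεs).symm)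
  have hinj : Function.Injective E := by
    intro i j hij
    by_contra hne
    obtain ⟨m, hm, hm2⟩ := hsepE i j hne
    rw [hij, Set.uIcc_self, Set.mem_singleton_iff] at hm
    rw [hm] at hm2
    exact absurd (hE1 j) (not_le.2 hm2)
  rcases Nat.eq_zero_or_pos N with hN0 | hN0
  · omega
  obtain ⟨M, rfl⟩ : ∃ M, N = M + 1 := ⟨N - 1, by omega⟩
  have hcard : (Finset.univ.image E).card = M + 1 := by
    rw [Finset.card_image_of_injective _ hinj, Finset.card_univ, Fintype.card_fin]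
  set e := (Finset.univ.image E).orderEmbOfFin hcard with he
  have hmem : ∀ k, ∃ i, E i = e k := by
    intro k
    have := Finset.orderEmbOfFin_mem (Finset.univ.image E) hcard k
    rw [Finset.mem_image] at this
    obtain ⟨i, -, hi⟩ := this
    exact ⟨i, hi⟩
  have hcrit : ∀ k : Fin M, ∃ c, e k.castSucc < c ∧ c < e k.succ ∧ (derivative p).eval c = 0 := by
    intro k
    have hlt : e k.castSucc < e k.succ := e.strictMono k.castSucc_lt_succ
    obtain ⟨i, hi⟩ := hmem k.castSucc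
    obtain ⟨j, hj⟩ := hmem k.succ
    have hij : i ≠ j := by
      rintro rfl
      rw [hi] at hj
      exact absurd hj hlt.ne
    obtain ⟨m, hm, hm2⟩ := hsepE i j hij
    rw [hi, hj, Set.uIcc_of_le hlt.le] at hm
    have hcont : ContinuousOn (fun t : ℝ => (p.eval t) ^ 2) (Set.Icc (e k.castSucc) (e k.succ)) := by
      fun_prop
    obtain ⟨c, hc, hmax⟩ := isCompact_Icc.exists_isMaxOn ⟨m, hm⟩ hcont
    have hc4 : 4 < (p.eval c) ^ 2 := hm2.trans_le (hmax hm)
    have hne1 : c ≠ e k.castSucc := by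
      rintro rfl
      rw [← hi] at hc4
      exact absurd (hE1 i) (not_le.2 hc4)
    have hne2 : c ≠ e k.succ := by
      rintro rfl
      rw [← hj] at hc4
      exact absurd (hE1 j) (not_le.2 hc4)
    have hc1 : e k.castSucc < c := lt_of_le_of_ne hc.1 (Ne.symm hne1)
    have hc2 : c < e k.succ := lt_of_le_of_ne hc.2 hne2
    refine ⟨c, hc1, hc2, ?_⟩
    have hloc : IsLocalMax (fun t : ℝ => (p.eval t) ^ 2) c := hmax.isLocalMax (Icc_mem_nhds hc1 hc2)
    have hder : HasDerivAt (fun t : ℝ => (p.eval t) ^ 2)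
        (2 * p.eval c * (derivative p).eval c) c := by
      have := (p.hasDerivAt c).fun_pow 2
      simpa using this
    have h3 := hloc.hasDerivAt_eq_zero hder
    have h4 : p.eval c ≠ 0 := by
      intro h
      rw [h] at hc4
      norm_num at hc4
    rcases mul_eq_zero.1 h3 with h | h
    · exact absurd h (mul_ne_zero two_ne_zero h4)
    · exact h
  choose c hc1 hc2 hc3 using hcrit
  have hcm : StrictMono c := by
    intro k l hkl
    have h3 : e k.succ ≤ e l.castSucc := e.monotone (by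
      rw [Fin.le_def]
      have : (k : ℕ) < l := hkl
      simp
      omega)
    exact (hc2 k).trans_le (h3.trans (hc1 l).le)
  have hp' : derivative p ≠ 0 := by
    intro h
    have := natDegree_eq_zero_of_derivative_eq_zero h
    omega
  have h5 : Finset.univ.image c ⊆ (derivative p).roots.toFinset := by
    intro t ht
    rw [Finset.mem_image] at ht
    obtain ⟨k, -, rfl⟩ := ht
    rw [Multiset.mem_toFinset, mem_roots hp', IsRoot.def]
    exact hc3 k
  have h6 := Finset.card_le_card h5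
  rw [Finset.card_image_of_injective _ hcm.injective, Finset.card_univ, Fintype.card_fin] at h6
  have h7 : (derivative p).roots.toFinset.card ≤ (derivative p).natDegree :=
    (Multiset.toFinset_card_le _).trans (card_roots' _)
  have h8 := natDegree_derivative_le p
  omega

/-- at least as many large clusters as bands -/
theorem lower (p : ℝ[X]) (X : Finset ℝ) {q : ℕ} (z : Fin q → ℝ) (hz0 : ∀ i, p.eval (z i) = 0)
    (hξ : ∀ i j, i < j → ∃ ξ, z i < ξ ∧ ξ < z j ∧ 4 < (p.eval ξ) ^ 2) :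
    ∃ s r : ℝ, 0 < s ∧ 0 < r ∧ ∀ ε : ℝ, 0 < ε → ∃ η : ℝ, 0 < η ∧ ∀ A : Set ℝ,
      (∀ E : ℝ, (p.eval E) ^ 2 ≤ 4 → ∃ E' ∈ A, |E - E'| ≤ η) →
      (∀ E ∈ A, (∃ E' : ℝ, (p.eval E') ^ 2 ≤ 4 ∧ |E - E'| ≤ η) ∨ ∃ x ∈ X, |E - x| ≤ η) →
      Clusters A ε s r q := by
  rcases Nat.eq_zero_or_pos q with hq | hq
  · subst hq
    exact ⟨1, 1, one_pos, one_pos, fun ε _ => ⟨1, one_pos, fun A _ _ =>
      ⟨fun i => i.elim0, fun i => i.elim0, fun i => i.elim0, fun i => i.elim0⟩⟩⟩
  have hne : Nonempty (Fin q) := ⟨⟨0, hq⟩⟩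
  -- neighbourhoods of the zeros
  have hnb : ∀ i, ∃ ρ : ℝ, 0 < ρ ∧ ∀ t, |t - z i| ≤ ρ → (p.eval t) ^ 2 ≤ 4 := by
    intro i
    have hO : IsOpen {t : ℝ | (p.eval t) ^ 2 < 4} :=
      isOpen_lt (by fun_prop) continuous_const
    obtain ⟨ρ, hρ, hb⟩ := Metric.isOpen_iff.1 hO (z i) (by
      show (p.eval (z i)) ^ 2 < 4
      rw [hz0]; norm_num)
    refine ⟨ρ / 2, by positivity, fun t ht => ?_⟩
    have : t ∈ {t : ℝ | (p.eval t) ^ 2 < 4} := hb (by
      rw [Metric.mem_ball, Real.dist_eq]; linarith)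
    exact le_of_lt this
  choose ρ hρ0 hρ using hnb
  obtain ⟨i₀, hi₀⟩ := Finite.exists_min ρ
  set R := ρ i₀ with hR
  have hR0 : 0 < R := hρ0 i₀
  have hband : ∀ i t, |t - z i| ≤ R → (p.eval t) ^ 2 ≤ 4 := fun i t ht => hρ i t (ht.trans (hi₀ i))
  -- free intervals
  have hfree : ∀ ij : Fin q × Fin q, ∃ y r : ℝ, 0 < r ∧ (ij.1 < ij.2 →
      z ij.1 ≤ y - r ∧ y + r ≤ z ij.2 ∧ ∀ t, |t - y| < r → 4 < (p.eval t) ^ 2 ∧ t ∉ X) := by
    rintro ⟨i, j⟩
    by_cases hij : i < j
    · obtain ⟨ξ, h1, h2, h3⟩ := hξ i j hij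
      obtain ⟨y, r, e1, e2, e3, e4⟩ := free_interval p X h1 h2 h3
      exact ⟨y, r, e1, fun _ => ⟨e2, e3, e4⟩⟩
    · exact ⟨0, 1, one_pos, fun h => absurd h hij⟩
  choose Y r hr0 hr using hfree
  obtain ⟨ij₀, hij₀⟩ := Finite.exists_min r
  set σ := r ij₀ with hσ
  have hσ0 : 0 < σ := hr0 ij₀
  refine ⟨σ, R / 2, hσ0, by positivity, fun ε hε => ?_⟩
  set η := min (ε / 3) (min (σ / 4) (R / 4)) with hη
  have hη0 : 0 < η := lt_min (by positivity) (lt_min (by positivity) (by positivity))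
  have hη1 : 3 * η ≤ ε := by
    have := min_le_left (ε / 3) (min (σ / 4) (R / 4))
    linarith
  have hη2 : η ≤ σ / 4 := (min_le_right _ _).trans (min_le_left _ _)
  have hη3 : η ≤ R / 4 := (min_le_right _ _).trans (min_le_right _ _)
  refine ⟨η, hη0, fun A h1 h2 => ?_⟩
  have hx : ∀ i, ∃ a ∈ A, |z i - a| ≤ η := fun i => h1 _ (by rw [hz0]; norm_num)
  have hy : ∀ i, ∃ a ∈ A, |z i + R - a| ≤ η := fun i => h1 _ (hband i _ (by
    rw [add_sub_cancel_left, abs_of_pos hR0]))
  choose x hxA hx using hx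
  choose y hyA hy using hy
  have hsep : ∀ i j, i < j → ¬ Chain A σ (x i) (x j) := by
    intro i j hij hc
    obtain ⟨e1, e2, e3⟩ := hr (i, j) hij
    have e4 : σ ≤ r (i, j) := hij₀ (i, j)
    have hxi := abs_le.1 (hx i)
    have hxj := abs_le.1 (hx j)
    have h3 := hc.cross (l := Y (i, j) - r (i, j) + η) (u := Y (i, j) + r (i, j) - η) (by
      intro a ha
      by_contra hcon
      rw [not_or, not_le, not_le] at hcon
      rcases h2 a ha with ⟨E', hE', hd⟩ | ⟨t, ht, hd⟩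
      · have h5 := abs_le.1 hd
        have := (e3 E' (by
          rw [abs_lt]
          constructor <;> linarith [hcon.1, hcon.2, h5.1, h5.2])).1
        exact absurd hE' (not_le.2 this)
      · have h5 := abs_le.1 hd
        exact (e3 t (by
          rw [abs_lt]
          constructor <;> linarith [hcon.1, hcon.2, h5.1, h5.2])).2 ht) (by linarith)
      (by
        have : z (i, j).1 = z i := rfl
        linarith [hxi.1])
    have h4 : z (i, j).2 = z j := rfl
    linarith [hxj.2]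
  refine ⟨x, y, fun i => ⟨hxA i, hyA i, ?_, ?_⟩, fun i j hij hc => ?_⟩
  · have e1 := abs_le.1 (hx i)
    have e2 := abs_le.1 (hy i)
    rw [le_abs]
    right
    linarith [e1.1, e1.2, e2.1, e2.2]
  · refine (chain_path (S := {t | (p.eval t) ^ 2 ≤ 4}) hη0 h1 (a := z i) (b := z i + R)
      (fun t ht => ?_) (hxA i) (hyA i) (by rw [abs_sub_comm]; exact hx i)
      (by rw [abs_sub_comm]; exact hy i)).mono hη1
    apply hband i t
    have := Set.abs_sub_left_of_mem_uIcc ht
    rwa [add_sub_cancel_left, abs_of_pos hR0] at this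
  · rcases lt_or_gt_of_ne hij with h | h
    · exact hsep i j h hc
    · exact hsep j i h hc.symm

end Pool.Agent.Y662.STU
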