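import Pool.Agent.Y662.STU.Clu

/-! # Spectra near two rational frequencies with different denominators -/

set_option autoImplicit false

open Filter Topology Polynomial MeasureTheory Pool.Agent.Helper434.PSCplx

namespace Pool.Agent.Y662.STU

open Pool.Agent.H695R3.ST

/-- Hölder condition at small distances -/
def Md (n : ℕ) (A : Set ℝ) (f : ℝ → ℝ) : Prop :=
  ∀ a ∈ A, ∀ b ∈ A, |a - b| ≤ 1 → |f a - f b| ≤ (n + 1) * |a - b| ^ ((1 : ℝ) / (n + 1))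

/-- bi-Hölder equivalence with explicit constants -/
def Eqn (n : ℕ) (A B : Set ℝ) : Prop :=
  ∃ f g : ℝ → ℝ, (∀ a ∈ A, f a ∈ B) ∧ (∀ b ∈ B, g b ∈ A) ∧ (∀ a ∈ A, g (f a) = a) ∧
    (∀ b ∈ B, f (g b) = b) ∧ Md n A f ∧ Md n B g

theorem Eqn.symm {n : ℕ} {A B : Set ℝ} (h : Eqn n A B) : Eqn n B A := by
  obtain ⟨f, g, h1, h2, h3, h4, h5, h6⟩ := h
  exact ⟨g, f, h2, h1, h4, h3, h6, h5⟩

theorem small_pow (n : ℕ) {c : ℝ} (hc : 0 < c) :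
    ∃ t : ℝ, 0 < t ∧ t ≤ 1 ∧ ((n : ℝ) + 1) * t ^ ((1 : ℝ) / (n + 1)) ≤ c := by
  have hn : (0 : ℝ) < n + 1 := by positivity
  set u : ℝ := min 1 (c / (n + 1)) with hu
  have hu0 : 0 < u := lt_min one_pos (by positivity)
  refine ⟨u ^ (n + 1), by positivity, pow_le_one₀ hu0.le (min_le_left _ _), ?_⟩
  have e : (u ^ (n + 1)) ^ ((1 : ℝ) / (n + 1)) = u := by
    have h := Real.pow_rpow_inv_natCast hu0.le (Nat.succ_ne_zero n)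
    rw [one_div]
    push_cast at h
    exact h
  rw [e]
  have h1 : u ≤ c / (n + 1) := min_le_right _ _
  rw [le_div_iff₀ hn] at h1
  linarith

theorem Md.le {n : ℕ} {A : Set ℝ} {f : ℝ → ℝ} (h : Md n A f) {t c : ℝ} (ht1 : t ≤ 1)
    (htc : ((n : ℝ) + 1) * t ^ ((1 : ℝ) / (n + 1)) ≤ c) {a b : ℝ} (ha : a ∈ A) (hb : b ∈ A)
    (hab : |a - b| ≤ t) : |f a - f b| ≤ c := by
  refine (h a ha b hb (hab.trans ht1)).trans (le_trans ?_ htc)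
  refine mul_le_mul_of_nonneg_left ?_ (by positivity)
  exact Real.rpow_le_rpow (abs_nonneg _) hab (by positivity)

/-- transport of clusters under bi-Hölder maps -/
theorem transport (n : ℕ) {s r : ℝ} (hs : 0 < s) (hr : 0 < r) :
    ∃ s' r' : ℝ, 0 < s' ∧ 0 < r' ∧ ∀ ε' : ℝ, 0 < ε' → ∃ ε : ℝ, 0 < ε ∧
      ∀ (A B : Set ℝ) (N : ℕ), Eqn n A B → Clusters A ε s r N → Clusters B ε' s' r' N := by
  obtain ⟨s', h1, h2, h3⟩ := small_pow n hs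
  obtain ⟨r', h4, h5, h6⟩ := small_pow n (half_pos hr)
  refine ⟨s', r', h1, h4, fun ε' hε' => ?_⟩
  obtain ⟨ε, h7, h8, h9⟩ := small_pow n hε'
  refine ⟨ε, h7, fun A B N ⟨f, g, hf, hg, hgf, hfg, mf, mg⟩ hC => ?_⟩
  refine hC.map hf hg hgf (fun a ha b hb hab => mf.le h8 h9 ha hb hab)
    (fun a ha b hb hab => mg.le h2 h3 ha hb hab) (fun a ha b hb hab => ?_)
  have := mg.le h5 h6 ha hb hab.le
  linarith

theorem near_lower {lam : ℝ} (hlam : 0 < lam) {p q : ℕ} (hp : 0 < p) (hpq : p < q)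
    (hc : Nat.Coprime p q) :
    ∃ s r : ℝ, 0 < s ∧ 0 < r ∧ ∀ ε : ℝ, 0 < ε → ∃ δ : ℝ, 0 < δ ∧ ∀ α : ℝ, 0 < α → α < 1 →
      |α - (p : ℝ) / q| < δ → ∀ (ω : ℝ) (H : L2 →L[ℂ] L2), IsSchr (pot lam α ω) H →
        Clusters (spectrum ℝ H) ε s r q := by
  obtain ⟨X, -, hX⟩ := static (lam := lam) hlam.le hp hpq hc
  obtain ⟨z, -, hz0, hξ⟩ := Dp_zeros (lam := lam) hlam.ne' hp hpq hc
  obtain ⟨s, r, hs, hr, h⟩ := lower (Dp lam p q) X z hz0 hξ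
  refine ⟨s, r, hs, hr, fun ε hε => ?_⟩
  obtain ⟨η, hη, h1⟩ := h ε hε
  obtain ⟨δ, hδ, h2⟩ := hX η hη
  refine ⟨δ, hδ, fun α h0 h1' hd ω H hH => ?_⟩
  obtain ⟨a1, a2⟩ := h2 α h0 h1' hd ω H hH
  exact h1 _ a1 a2

theorem near_upper {lam : ℝ} (hlam : 0 < lam) {p q : ℕ} (hp : 0 < p) (hpq : p < q)
    (hc : Nat.Coprime p q) {s r : ℝ} (hs : 0 < s) (hr : 0 < r) :
    ∃ ε δ : ℝ, 0 < ε ∧ 0 < δ ∧ ∀ α : ℝ, 0 < α → α < 1 → |α - (p : ℝ) / q| < δ →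
      ∀ (ω : ℝ) (H : L2 →L[ℂ] L2), IsSchr (pot lam α ω) H →
        ∀ N : ℕ, Clusters (spectrum ℝ H) ε s r N → N ≤ q := by
  obtain ⟨X, -, hX⟩ := static (lam := lam) hlam.le hp hpq hc
  set η : ℝ := min (s / 3) (r / (8 * (X.card + 1))) with hη
  have hk : (0 : ℝ) < X.card + 1 := by positivity
  have hη0 : 0 < η := lt_min (by positivity) (by positivity)
  have h1 : η ≤ s / 3 := min_le_left _ _
  have h2 : η ≤ r / (8 * (X.card + 1)) := min_le_right _ _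
  obtain ⟨δ, hδ, h⟩ := hX η hη0
  refine ⟨η, δ, hη0, hδ, fun α h0 h1' hd ω H hH N hN => ?_⟩
  obtain ⟨a1, a2⟩ := h α h0 h1' hd ω H hH
  have hdeg : (Dp lam p q).natDegree = q := (D_monic (Wp lam p q) 0 (by omega)).2
  have h3 := upper (p := Dp lam p q) (by rw [hdeg]; omega) X hη0 hη0.le (by linarith)
    (by linarith) (by
      rw [le_div_iff₀ (by positivity)] at h2
      nlinarith [mul_pos hη0 hk]) a1 a2 hN
  rwa [hdeg] at h3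

/-- the spectra at `α` and `β`, for all phases, are not bi-Hölder equivalent with constant `n` -/
def NotEq (lam : ℝ) (n : ℕ) (α β : ℝ) : Prop :=
  ∀ (ω₁ ω₂ : ℝ) (H₁ H₂ : L2 →L[ℂ] L2), IsSchr (pot lam α ω₁) H₁ → IsSchr (pot lam β ω₂) H₂ →
    ¬ Eqn n (spectrum ℝ H₁) (spectrum ℝ H₂)

theorem near_pair_lt {lam : ℝ} (hlam : 0 < lam) {p q p' q' : ℕ} (hp : 0 < p) (hpq : p < q)
    (hc : Nat.Coprime p q) (hp' : 0 < p') (hpq' : p' < q') (hc' : Nat.Coprime p' q')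
    (hqq : q' < q) (n : ℕ) :
    ∃ δ : ℝ, 0 < δ ∧ ∀ α β : ℝ, 0 < α → α < 1 → 0 < β → β < 1 → |α - (p : ℝ) / q| < δ →
      |β - (p' : ℝ) / q'| < δ → NotEq lam n α β := by
  obtain ⟨s, r, hs, hr, h1⟩ := near_lower hlam hp hpq hc
  obtain ⟨s', r', hs', hr', h2⟩ := transport n hs hr
  obtain ⟨ε', δ', hε', hδ', h3⟩ := near_upper hlam hp' hpq' hc' hs' hr'
  obtain ⟨ε, hε, h4⟩ := h2 ε' hε'
  obtain ⟨δ, hδ, h5⟩ := h1 ε hε
  refine ⟨min δ δ', lt_min hδ hδ', fun α β a0 a1 b0 b1 ha hb ω₁ ω₂ H₁ H₂ e1 e2 he => ?_⟩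
  have h6 := h5 α a0 a1 (ha.trans_le (min_le_left _ _)) ω₁ H₁ e1
  have h7 := h4 _ _ _ he h6
  have h8 := h3 β b0 b1 (hb.trans_le (min_le_right _ _)) ω₂ H₂ e2 _ h7
  omega

theorem near_pair {lam : ℝ} (hlam : 0 < lam) {p q p' q' : ℕ} (hp : 0 < p) (hpq : p < q)
    (hc : Nat.Coprime p q) (hp' : 0 < p') (hpq' : p' < q') (hc' : Nat.Coprime p' q')
    (hqq : q ≠ q') (n : ℕ) :
    ∃ δ : ℝ, 0 < δ ∧ ∀ α β : ℝ, 0 < α → α < 1 → 0 < β → β < 1 → |α - (p : ℝ) / q| < δ →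
      |β - (p' : ℝ) / q'| < δ → NotEq lam n α β := by
  rcases lt_or_gt_of_ne hqq with h | h
  · obtain ⟨δ, hδ, h1⟩ := near_pair_lt hlam hp' hpq' hc' hp hpq hc h n
    exact ⟨δ, hδ, fun α β a0 a1 b0 b1 ha hb ω₁ ω₂ H₁ H₂ e1 e2 he =>
      h1 β α b0 b1 a0 a1 hb ha ω₂ ω₁ H₂ H₁ e2 e1 he.symm⟩
  · exact near_pair_lt hlam hp hpq hc hp' hpq' hc' h n

/-- the same with rational numbers -/
theorem near_rat {lam : ℝ} (hlam : 0 < lam) {x y : ℚ} (hx0 : 0 < x) (hx1 : x < 1) (hy0 : 0 < y)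
    (hy1 : y < 1) (hxy : x.den ≠ y.den) (n : ℕ) :
    ∃ δ : ℝ, 0 < δ ∧ ∀ α β : ℝ, 0 < α → α < 1 → 0 < β → β < 1 → |α - (x : ℝ)| < δ →
      |β - (y : ℝ)| < δ → NotEq lam n α β := by
  have key : ∀ z : ℚ, 0 < z → z < 1 → 0 < z.num.natAbs ∧ z.num.natAbs < z.den ∧
      (z : ℝ) = (z.num.natAbs : ℝ) / z.den := by
    intro z h0 h1
    have hnum : 0 < z.num := Rat.num_pos.2 h0
    have h2 : z.num < z.den := Rat.num_lt_denom_iff.2 h1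
    refine ⟨Int.natAbs_pos.2 hnum.ne', by omega, ?_⟩
    have e1 : (z : ℝ) = (z.num : ℝ) / (z.den : ℝ) := by
      exact_mod_cast (Rat.cast_def z (K := ℝ))
    have e2 : ((z.num.natAbs : ℕ) : ℤ) = z.num := Int.natAbs_of_nonneg hnum.le
    have e3 : ((z.num.natAbs : ℕ) : ℝ) = (z.num : ℝ) := by
      rw [← Int.cast_natCast, e2]
    rw [e1, e3]
  obtain ⟨a1, a2, a3⟩ := key x hx0 hx1
  obtain ⟨b1, b2, b3⟩ := key y hy0 hy1
  obtain ⟨δ, hδ, h⟩ := near_pair hlam a1 a2 x.reduced b1 b2 y.reduced hxy n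
  refine ⟨δ, hδ, fun α β e0 e1 e2 e3 e4 e5 => ?_⟩
  rw [a3] at e4
  rw [b3] at e5
  exact h α β e0 e1 e2 e3 e4 e5

end Pool.Agent.Y662.STU
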