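import Pool.Agent.Y662.STU.Loc
import Pool.Agent.Results.MP_e333c6_mp.SturmianNotDiffeo

/-! # Tail-equivalence and fractional linear maps; generic frequencies -/

set_option autoImplicit false

open Filter Topology Polynomial MeasureTheory Pool.Agent.Helper434.PSCplx

namespace Pool.Agent.Y662.STU

open Pool.Agent.H695R3.ST
open Pool.Agent.Results.MP_e333c6_mp.SturmianNotDiffeo (gauss digit TailEquiv)

theorem gauss_mem {x : ℝ} (hx : Irrational x) :
    Irrational (gauss x) ∧ gauss x ∈ Set.Ioo (0 : ℝ) 1 := by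
  have h1 : Irrational (1 / x) := by
    rw [one_div]
    exact hx.inv
  have e : gauss x = 1 / x - ⌊1 / x⌋ := rfl
  have h2 : Irrational (gauss x) := by
    rw [e]
    exact h1.sub_intCast _
  refine ⟨h2, lt_of_le_of_ne (Int.fract_nonneg _) ?_, Int.fract_lt_one _⟩
  intro h
  exact h2 ⟨0, by rw [Rat.cast_zero]; exact h⟩

theorem iter_mem {x : ℝ} (hx : Irrational x) (h : x ∈ Set.Ioo (0 : ℝ) 1) (j : ℕ) :
    Irrational (gauss^[j] x) ∧ gauss^[j] x ∈ Set.Ioo (0 : ℝ) 1 := by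
  induction j with
  | zero => exact ⟨hx, h⟩
  | succ j ih =>
    rw [Function.iterate_succ_apply']
    exact gauss_mem ih.1

theorem gauss_rel {x : ℝ} (hx : x ∈ Set.Ioo (0 : ℝ) 1) :
    x * ((⌊1 / x⌋ : ℝ) + gauss x) = 1 ∧ (1 : ℝ) ≤ ⌊1 / x⌋ := by
  constructor
  · have e : (⌊1 / x⌋ : ℝ) + gauss x = 1 / x := Int.floor_add_fract _
    rw [e, mul_one_div, div_self hx.1.ne']
  · have h1 : (1 : ℝ) ≤ 1 / x := by
      rw [le_div_iff₀ hx.1]
      linarith [hx.2]
    have h2 : (1 : ℤ) ≤ ⌊1 / x⌋ := Int.le_floor.2 (by exact_mod_cast h1)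
    exact_mod_cast h2

theorem contr_one {a b : ℝ} (ha : a ∈ Set.Ioo (0 : ℝ) 1) (hb : b ∈ Set.Ioo (0 : ℝ) 1)
    (h : ⌊1 / a⌋ = ⌊1 / b⌋) : |a - b| = a * b * |gauss a - gauss b| := by
  obtain ⟨h1, h2⟩ := gauss_rel ha
  obtain ⟨h3, h4⟩ := gauss_rel hb
  rw [← h] at h3
  have e : a - b = -(a * b * (gauss a - gauss b)) := by
    linear_combination b * h1 - a * h3
  rw [e, abs_neg, abs_mul, abs_of_pos (mul_pos ha.1 hb.1)]

theorem prod_half {a : ℝ} (ha : a ∈ Set.Ioo (0 : ℝ) 1) (hg : gauss a ∈ Set.Ioo (0 : ℝ) 1) :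
    a * gauss a ≤ 1 / 2 := by
  obtain ⟨h1, h2⟩ := gauss_rel ha
  have h3 : a * gauss a ≤ a * (⌊1 / a⌋ : ℝ) :=
    mul_le_mul_of_nonneg_left (by linarith [hg.2]) ha.1.le
  have h4 : a * (⌊1 / a⌋ : ℝ) + a * gauss a = 1 := by rw [← mul_add]; exact h1
  linarith

theorem unique_digits (k : ℕ) : ∀ a b : ℝ, Irrational a → Irrational b →
    a ∈ Set.Ioo (0 : ℝ) 1 → b ∈ Set.Ioo (0 : ℝ) 1 →
    (∀ j : ℕ, ⌊1 / gauss^[j] a⌋ = ⌊1 / gauss^[j] b⌋) → |a - b| ≤ (1 / 4) ^ k := by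
  induction k with
  | zero =>
    intro a b _ _ ha hb _
    rw [pow_zero, abs_le]
    constructor <;> linarith [ha.1, ha.2, hb.1, hb.2]
  | succ k ih =>
    intro a b ia ib ha hb h
    have g1 := gauss_mem ia
    have g2 := gauss_mem ib
    have g3 := gauss_mem g1.1
    have g4 := gauss_mem g2.1
    have h1 := contr_one ha hb (h 0)
    have h2 := contr_one g1.2 g2.2 (h 1)
    have h3 := ih (gauss (gauss a)) (gauss (gauss b)) g3.1 g4.1 g3.2 g4.2 (fun j => by
      have := h (j + 2)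
      rw [Function.iterate_add_apply, Function.iterate_add_apply] at this
      exact this)
    have h4 := prod_half ha g1.2
    have h5 := prod_half hb g2.2
    rw [h1, h2, pow_succ]
    have h6 : a * b * (gauss a * gauss b * |gauss (gauss a) - gauss (gauss b)|) =
        (a * gauss a) * (b * gauss b) * |gauss (gauss a) - gauss (gauss b)| := by ring
    rw [h6]
    have h7 : 0 ≤ b * gauss b := mul_nonneg hb.1.le g2.2.1.le
    have h8 : (a * gauss a) * (b * gauss b) ≤ 1 / 2 * (1 / 2) :=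
      mul_le_mul h4 h5 h7 (by norm_num)
    calc (a * gauss a) * (b * gauss b) * |gauss (gauss a) - gauss (gauss b)|
        ≤ 1 / 2 * (1 / 2) * (1 / 4) ^ k := mul_le_mul h8 h3 (abs_nonneg _) (by norm_num)
      _ = (1 / 4) ^ k * (1 / 4) := by ring

theorem eq_of_digits {a b : ℝ} (ia : Irrational a) (ib : Irrational b)
    (ha : a ∈ Set.Ioo (0 : ℝ) 1) (hb : b ∈ Set.Ioo (0 : ℝ) 1)
    (h : ∀ j : ℕ, ⌊1 / gauss^[j] a⌋ = ⌊1 / gauss^[j] b⌋) : a = b := by
  have h1 : Tendsto (fun k : ℕ => ((1 : ℝ) / 4) ^ k) atTop (𝓝 0) :=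
    tendsto_pow_atTop_nhds_zero_of_lt_one (by norm_num) (by norm_num)
  have h2 : |a - b| ≤ 0 := ge_of_tendsto' h1 fun k => unique_digits k a b ia ib ha hb h
  have := abs_nonpos_iff.1 h2
  linarith

theorem mob_iter {x : ℝ} (hx : Irrational x) (h : x ∈ Set.Ioo (0 : ℝ) 1) (j : ℕ) :
    ∃ A B C D : ℤ, (A * D - B * C = 1 ∨ A * D - B * C = -1) ∧
      x * (C * gauss^[j] x + D) = A * gauss^[j] x + B := by
  induction j with
  | zero =>
    refine ⟨1, 0, 0, 1, Or.inl (by norm_num), ?_⟩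
    simp
  | succ j ih =>
    obtain ⟨A, B, C, D, h1, h2⟩ := ih
    have h3 := (gauss_rel (iter_mem hx h j).2).1
    rw [Function.iterate_succ_apply']
    set y := gauss^[j] x with hy
    refine ⟨B, A + ⌊1 / y⌋ * B, D, C + ⌊1 / y⌋ * D, ?_, ?_⟩
    · rcases h1 with h1 | h1
      · right; linear_combination -h1
      · left; linear_combination -h1
    · push_cast
      linear_combination ((⌊1 / y⌋ : ℝ) + gauss y) * h2 + (A - x * C) * h3

theorem tail_mob {α β : ℝ} (iα : Irrational α) (iβ : Irrational β)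
    (hα : α ∈ Set.Ioo (0 : ℝ) 1) (hβ : β ∈ Set.Ioo (0 : ℝ) 1) (h : TailEquiv α β) :
    ∃ A B C D : ℤ, (A * D - B * C = 1 ∨ A * D - B * C = -1) ∧
      β * (C * α + D) = A * α + B := by
  obtain ⟨k, i₀, h1, h2, h3⟩ := h
  obtain ⟨m, hm⟩ : ∃ m : ℕ, i₀ = m + 1 := ⟨i₀ - 1, by omega⟩
  obtain ⟨m', hm'⟩ : ∃ m' : ℕ, (i₀ : ℤ) + k = m' + 1 := ⟨((i₀ : ℤ) + k).toNat - 1, by omega⟩
  have e : gauss^[m] α = gauss^[m'] β := by
    obtain ⟨a1, a2⟩ := iter_mem iα hα m
    obtain ⟨b1, b2⟩ := iter_mem iβ hβ m'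
    refine eq_of_digits a1 b1 a2 b2 fun j => ?_
    have h4 := h3 (i₀ + j) (by omega)
    unfold digit at h4
    have e1 : i₀ + j - 1 = j + m := by omega
    have e2 : (((i₀ + j : ℕ) : ℤ) + k).toNat - 1 = j + m' := by omega
    rw [e1, e2, Function.iterate_add_apply, Function.iterate_add_apply] at h4
    exact h4.symm
  obtain ⟨A, B, C, D, d1, r1⟩ := mob_iter iα hα m
  obtain ⟨A', B', C', D', d2, r2⟩ := mob_iter iβ hβ m'
  rw [← e] at r2
  set a := gauss^[m] α with ha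
  refine ⟨B' * C - A' * D, A' * B - B' * A, D' * C - C' * D, C' * B - D' * A, ?_, ?_⟩
  · have hd : (B' * C - A' * D) * (C' * B - D' * A) - (A' * B - B' * A) * (D' * C - C' * D) =
        (A' * D' - B' * C') * (A * D - B * C) := by ring
    rw [hd]
    rcases d1 with d1 | d1 <;> rcases d2 with d2 | d2 <;> rw [d1, d2] <;> norm_num
  · push_cast
    linear_combination (C * α - A) * r2 - (β * C' - A') * r1

theorem den_mob {A B C D : ℤ} (hdet : A * D - B * C = 1 ∨ A * D - B * C = -1) (x : ℚ)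
    (hne : (C : ℚ) * x + D ≠ 0) :
    ((((A : ℚ) * x + B) / (C * x + D)).den : ℤ) = |C * x.num + D * x.den| := by
  set P : ℤ := x.num with hP
  set Q : ℤ := (x.den : ℤ) with hQ
  have hQ0 : (Q : ℚ) ≠ 0 := by
    rw [hQ]
    exact_mod_cast x.den_nz
  have hx : x = (P : ℚ) / Q := by
    rw [hP, hQ, Int.cast_natCast]
    exact (Rat.num_div_den x).symm
  have hcop : IsCoprime P Q := by
    rw [Int.isCoprime_iff_gcd_eq_one]
    exact x.reduced
  have e1 : (C : ℚ) * x + D = ((C * P + D * Q : ℤ) : ℚ) / Q := by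
    rw [hx]
    push_cast
    field_simp
  have e2 : (A : ℚ) * x + B = ((A * P + B * Q : ℤ) : ℚ) / Q := by
    rw [hx]
    push_cast
    field_simp
  have hN2 : C * P + D * Q ≠ 0 := by
    intro h
    apply hne
    rw [e1, h]
    simp
  have e3 : ((A : ℚ) * x + B) / (C * x + D) =
      ((A * P + B * Q : ℤ) : ℚ) / ((C * P + D * Q : ℤ) : ℚ) := by
    rw [e1, e2, div_div_div_cancel_right₀ hQ0]
  have hcop2 : IsCoprime (A * P + B * Q) (C * P + D * Q) := by
    obtain ⟨u, w, huw⟩ := hcop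
    rcases hdet with h | h
    · exact ⟨u * D - w * C, w * A - u * B, by
        linear_combination (A * D - B * C) * huw + h⟩
    · exact ⟨-(u * D - w * C), -(w * A - u * B), by
        linear_combination -(A * D - B * C) * huw - h⟩
  rw [e3]
  rcases lt_or_gt_of_ne hN2 with h | h
  · rw [abs_of_neg h]
    have h1 := Rat.den_div_eq_of_coprime (a := -(A * P + B * Q)) (b := -(C * P + D * Q))
      (by omega) (by
        rw [Int.natAbs_neg, Int.natAbs_neg]
        exact Int.isCoprime_iff_gcd_eq_one.1 hcop2)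
    rw [← h1]
    congr 2
    push_cast
    rw [neg_div_neg_eq]
  · rw [abs_of_pos h]
    exact Rat.den_div_eq_of_coprime h (Int.isCoprime_iff_gcd_eq_one.1 hcop2)

theorem den_ne {A B C D : ℤ} (hdet : A * D - B * C = 1 ∨ A * D - B * C = -1) (x : ℚ)
    (hne : (C : ℚ) * x + D ≠ 0) (h1 : (C : ℚ) * x + D ≠ 1) (h2 : (C : ℚ) * x + D ≠ -1) :
    x.den ≠ (((A : ℚ) * x + B) / (C * x + D)).den := by
  intro h
  have h3 := den_mob hdet x hne
  rw [← h] at h3
  have hQ0 : (x.den : ℚ) ≠ 0 := by exact_mod_cast x.den_nz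
  have hx : (C : ℚ) * x + D = ((C * x.num + D * x.den : ℤ) : ℚ) / x.den := by
    have : (x.num : ℚ) = x * x.den := (Rat.mul_den_eq_num x).symm
    push_cast
    rw [this]
    field_simp
  rcases abs_choice (C * x.num + D * x.den) with h4 | h4
  · rw [h4] at h3
    apply h1
    rw [hx, ← h3]
    rw [Int.cast_natCast, div_self hQ0]
  · rw [h4] at h3
    apply h2
    have h5 : C * x.num + D * x.den = -(x.den : ℤ) := by omega
    rw [hx, h5]
    push_cast
    rw [neg_div, div_self hQ0]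

/-- near one rational frequency -/
theorem near_mob {lam : ℝ} (hlam : 0 < lam) {A B C D : ℤ}
    (hdet : A * D - B * C = 1 ∨ A * D - B * C = -1) (n : ℕ) (x : ℚ) (hx0 : (0 : ℝ) < x)
    (hx1 : (x : ℝ) < 1) (hne : (C : ℝ) * x + D ≠ 0) (h1 : (C : ℝ) * x + D ≠ 1)
    (h2 : (C : ℝ) * x + D ≠ -1) (hy0 : 0 < ((A : ℝ) * x + B) / (C * x + D))
    (hy1 : ((A : ℝ) * x + B) / (C * x + D) < 1) :
    ∃ δ : ℝ, 0 < δ ∧ ∀ α : ℝ, |α - (x : ℝ)| < δ → 0 < α → α < 1 → ∀ β : ℝ, 0 < β → β < 1 →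
      β * (C * α + D) = A * α + B → NotEq lam n α β := by
  set y : ℚ := ((A : ℚ) * x + B) / (C * x + D) with hy
  have hyr : (y : ℝ) = ((A : ℝ) * x + B) / (C * x + D) := by
    rw [hy]
    push_cast
    rfl
  have hden : x.den ≠ y.den := den_ne hdet x (by exact_mod_cast hne) (by exact_mod_cast h1)
    (by exact_mod_cast h2)
  obtain ⟨δ, hδ, h⟩ := near_rat hlam (x := x) (y := y) (by exact_mod_cast hx0)
    (by exact_mod_cast hx1) (by rw [← hyr] at hy0; exact_mod_cast hy0)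
    (by rw [← hyr] at hy1; exact_mod_cast hy1) hden n
  have hc1 : ContinuousAt (fun t : ℝ => (C : ℝ) * t + D) x := by fun_prop
  have hc2 : ContinuousAt (fun t : ℝ => ((A : ℝ) * t + B) / (C * t + D)) x :=
    ContinuousAt.div (by fun_prop) hc1 hne
  have h3 : ∀ᶠ t : ℝ in 𝓝 (x : ℝ), (C : ℝ) * t + D ≠ 0 := hc1.eventually_ne hne
  have h4 : ∀ᶠ t : ℝ in 𝓝 (x : ℝ), |((A : ℝ) * t + B) / (C * t + D) - y| < δ := by
    rw [hyr]
    exact (Metric.tendsto_nhds.1 hc2 δ hδ).mono fun t ht => by rwa [Real.dist_eq] at ht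
  obtain ⟨δ', hδ', h5⟩ := Metric.eventually_nhds_iff.1 (h3.and h4)
  refine ⟨min δ δ', lt_min hδ hδ', fun α hα a0 a1 β b0 b1 hβ => ?_⟩
  obtain ⟨h6, h7⟩ := h5 (y := α) (by rw [Real.dist_eq]; exact hα.trans_le (min_le_right _ _))
  have h8 : β = ((A : ℝ) * α + B) / (C * α + D) := by
    rw [eq_div_iff h6]
    exact hβ
  rw [← h8] at h7
  exact h α β a0 a1 b0 b1 (hα.trans_le (min_le_left _ _)) h7

/-- Generic frequencies. -/
theorem generic_all {lam : ℝ} (hlam : 0 < lam) :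
    ∀ᶠ α in residual ℝ, Irrational α ∧ (0 < α → α < 1 → ∀ A B C D : ℤ,
      (A * D - B * C = 1 ∨ A * D - B * C = -1) → C ≠ 0 → ∀ β : ℝ, 0 < β → β < 1 →
        β * (C * α + D) = A * α + B → ∀ n, NotEq lam n α β) := by
  have key : ∀ q : ℤ × ℤ × ℤ × ℤ × ℕ, ∀ᶠ α in residual ℝ, Irrational α → 0 < α → α < 1 →
      (q.1 * q.2.2.2.1 - q.2.1 * q.2.2.1 = 1 ∨ q.1 * q.2.2.2.1 - q.2.1 * q.2.2.1 = -1) →
      q.2.2.1 ≠ 0 → ∀ β : ℝ, 0 < β → β < 1 →
        β * (q.2.2.1 * α + q.2.2.2.1) = q.1 * α + q.2.1 → NotEq lam q.2.2.2.2 α β := by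
    rintro ⟨A, B, C, D, n⟩
    simp only
    by_cases hdet : A * D - B * C = 1 ∨ A * D - B * C = -1
    swap
    · exact Eventually.of_forall fun α _ _ _ h => absurd h hdet
    by_cases hC : C = 0
    · exact Eventually.of_forall fun α _ _ _ _ h => absurd hC h
    have hCr : (C : ℝ) ≠ 0 := by exact_mod_cast hC
    set O : Set ℝ := {t | 0 < t ∧ t < 1 ∧ (C : ℝ) * t + D ≠ 0 ∧
      0 < ((A : ℝ) * t + B) / (C * t + D) ∧ ((A : ℝ) * t + B) / (C * t + D) < 1} with hO
    have hOo : IsOpen O := by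
      rw [isOpen_iff_mem_nhds]
      rintro t ⟨h1, h2, h3, h4, h5⟩
      have hc1 : ContinuousAt (fun t : ℝ => (C : ℝ) * t + D) t := by fun_prop
      have hc2 : ContinuousAt (fun t : ℝ => ((A : ℝ) * t + B) / (C * t + D)) t :=
        ContinuousAt.div (by fun_prop) hc1 h3
      filter_upwards [lt_mem_nhds h1, gt_mem_nhds h2, hc1.eventually_ne h3,
        hc2.eventually (lt_mem_nhds h4), hc2.eventually (gt_mem_nhds h5)] with s e1 e2 e3 e4 e5
      exact ⟨e1, e2, e3, e4, e5⟩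
    have hx : ∀ x : ℚ, ∃ δ : ℝ, 0 < δ ∧ ((x : ℝ) ∈ O → (C : ℝ) * x + D ≠ 1 →
        (C : ℝ) * x + D ≠ -1 → ∀ α : ℝ, |α - (x : ℝ)| < δ → 0 < α → α < 1 → ∀ β : ℝ, 0 < β →
          β < 1 → β * (C * α + D) = A * α + B → NotEq lam n α β) := by
      intro x
      by_cases h : (x : ℝ) ∈ O ∧ (C : ℝ) * x + D ≠ 1 ∧ (C : ℝ) * x + D ≠ -1
      · obtain ⟨⟨h1, h2, h3, h4, h5⟩, h6, h7⟩ := h
        obtain ⟨δ, hδ, h8⟩ := near_mob hlam hdet n x h1 h2 h3 h6 h7 h4 h5
        exact ⟨δ, hδ, fun _ _ _ => h8⟩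
      · exact ⟨1, one_pos, fun h1 h2 h3 => absurd ⟨h1, h2, h3⟩ h⟩
    choose δ hδ0 hδ using hx
    set U : Set ℝ := ⋃ x : ℚ, ⋃ _ : (x : ℝ) ∈ O ∧ (C : ℝ) * x + D ≠ 1 ∧ (C : ℝ) * x + D ≠ -1,
      Metric.ball (x : ℝ) (δ x) with hU
    have hUo : IsOpen U := isOpen_iUnion fun x => isOpen_iUnion fun _ => Metric.isOpen_ball
    have hres : U ∪ interior Oᶜ ∈ residual ℝ := by
      apply residual_of_dense_open (hUo.union isOpen_interior)
      rw [dense_iff_inter_open]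
      intro W hW hWne
      by_cases hWO : (W ∩ O).Nonempty
      · obtain ⟨t, ht⟩ := hWO
        have hopen : IsOpen (W ∩ O) := hW.inter hOo
        have hF : IsClosed ({(1 - (D : ℝ)) / C, (-1 - (D : ℝ)) / C} : Set ℝ) :=
          (Set.toFinite _).isClosed
        have hopen2 : IsOpen ((W ∩ O) \ ({(1 - (D : ℝ)) / C, (-1 - (D : ℝ)) / C} : Set ℝ)) :=
          hopen.sdiff hF
        have hne2 : ((W ∩ O) \ ({(1 - (D : ℝ)) / C, (-1 - (D : ℝ)) / C} : Set ℝ)).Nonempty := by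
          have : (𝓝 t).NeBot := inferInstance
          have hinf : (W ∩ O).Infinite := infinite_of_mem_nhds t (hopen.mem_nhds ht)
          exact (hinf.sdiff (Set.toFinite _)).nonempty
        obtain ⟨x, hx⟩ := (Rat.denseRange_cast (𝕜 := ℝ)).exists_mem_open hopen2 hne2
        obtain ⟨⟨hxW, hxO⟩, hxn⟩ := hx
        rw [Set.mem_insert_iff, Set.mem_singleton_iff, not_or] at hxn
        refine ⟨x, hxW, Or.inl ?_⟩
        simp only [hU, Set.mem_iUnion]
        refine ⟨x, ⟨hxO, ?_, ?_⟩, Metric.mem_ball_self (hδ0 x)⟩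
        · intro h
          apply hxn.1
          rw [eq_div_iff hCr]
          linarith
        · intro h
          apply hxn.2
          rw [eq_div_iff hCr]
          linarith
      · obtain ⟨w, hw⟩ := hWne
        refine ⟨w, hw, Or.inr ?_⟩
        rw [mem_interior]
        refine ⟨W, fun v hv hvO => hWO ⟨v, hv, hvO⟩, hW, hw⟩
    filter_upwards [hres] with α hα iα a0 a1 _ _ β b0 b1 hβ
    have hne : (C : ℝ) * α + D ≠ 0 := by
      intro h
      have h1 : α = ((-D : ℤ) : ℝ) / ((C : ℤ) : ℝ) := by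
        rw [eq_div_iff hCr]
        push_cast
        linarith
      apply iα
      exact ⟨((-D : ℤ) : ℚ) / (C : ℚ), by rw [h1]; push_cast; rfl⟩
    have hβe : β = ((A : ℝ) * α + B) / (C * α + D) := by
      rw [eq_div_iff hne]
      exact hβ
    have hαO : α ∈ O := ⟨a0, a1, hne, by rw [← hβe]; exact b0, by rw [← hβe]; exact b1⟩
    rcases hα with h | h
    · simp only [hU, Set.mem_iUnion] at h
      obtain ⟨x, ⟨h1, h2, h3⟩, h4⟩ := h
      rw [Metric.mem_ball, Real.dist_eq] at h4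
      exact hδ x h1 h2 h3 α h4 a0 a1 β b0 b1 hβ
    · exact absurd hαO (interior_subset h)
  have hall := eventually_countable_forall.2 key
  filter_upwards [eventually_residual_irrational, hall] with α hirr h
  exact ⟨hirr, fun a0 a1 A B C D hdet hC β b0 b1 hβ n =>
    h (A, B, C, D, n) hirr a0 a1 hdet hC β b0 b1 hβ⟩

/-- integral matrices with `C = 0` -/
theorem mob_triv {A B D : ℤ} {α β : ℝ} (hdet : A * D - B * 0 = 1 ∨ A * D - B * 0 = -1)
    (a0 : 0 < α) (a1 : α < 1) (b0 : 0 < β) (b1 : β < 1)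
    (h : β * ((0 : ℤ) * α + D) = A * α + B) : β = α ∨ β = 1 - α := by
  rw [mul_zero, sub_zero] at hdet
  have hAD : (A = 1 ∧ D = 1) ∨ (A = -1 ∧ D = -1) ∨ (A = 1 ∧ D = -1) ∨ (A = -1 ∧ D = 1) := by
    rcases hdet with h | h
    · rcases Int.mul_eq_one_iff_eq_one_or_neg_one.1 h with h | h
      · exact Or.inl h
      · exact Or.inr (Or.inl h)
    · rcases Int.mul_eq_neg_one_iff_eq_one_or_neg_one.1 h with h | h
      · exact Or.inr (Or.inr (Or.inl h))
      · exact Or.inr (Or.inr (Or.inr h))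
  have hB : ∀ z : ℤ, (z : ℝ) < 1 → -1 < (z : ℝ) → z = 0 := by
    intro z h1 h2
    have h3 : z < 1 := by exact_mod_cast h1
    have h4 : -1 < z := by exact_mod_cast h2
    omega
  have hB1 : ∀ z : ℤ, (z : ℝ) < 2 → 0 < (z : ℝ) → z = 1 := by
    intro z h1 h2
    have h3 : z < 2 := by exact_mod_cast h1
    have h4 : 0 < z := by exact_mod_cast h2
    omega
  rcases hAD with ⟨rfl, rfl⟩ | ⟨rfl, rfl⟩ | ⟨rfl, rfl⟩ | ⟨rfl, rfl⟩
  · push_cast at h
    left
    have h2 := hB B (by linarith) (by linarith)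
    rw [h2] at h
    push_cast at h
    linarith
  · push_cast at h
    left
    have h2 := hB B (by linarith) (by linarith)
    rw [h2] at h
    push_cast at h
    linarith
  · push_cast at h
    right
    have h2 := hB1 (-B) (by push_cast; linarith) (by push_cast; linarith)
    have h3 : B = -1 := by omega
    rw [h3] at h
    push_cast at h
    linarith
  · push_cast at h
    right
    have h2 := hB1 B (by linarith) (by linarith)
    rw [h2] at h
    push_cast at h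
    linarith

/-- **Generic frequencies, all tail-equivalent frequencies.** -/
theorem generic_tail {lam : ℝ} (hlam : 0 < lam) :
    ∀ᶠ α in residual ℝ, 0 < α → α < 1 → Irrational α ∧ ∀ β : ℝ, Irrational β → 0 < β → β < 1 →
      TailEquiv α β → β ≠ α → β ≠ 1 - α → ∀ n, NotEq lam n α β := by
  filter_upwards [generic_all hlam] with α ⟨iα, h⟩ a0 a1
  refine ⟨iα, fun β iβ b0 b1 ht h1 h2 n => ?_⟩
  obtain ⟨A, B, C, D, hdet, hβ⟩ := tail_mob iα iβ ⟨a0, a1⟩ ⟨b0, b1⟩ ht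
  by_cases hC : C = 0
  · subst hC
    rcases mob_triv hdet a0 a1 b0 b1 hβ with h3 | h3
    · exact absurd h3 h1
    · exact absurd h3 h2
  · exact h a0 a1 A B C D hdet hC β b0 b1 hβ n

end Pool.Agent.Y662.STU
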