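import Pool.Agent.Y662.STU.Loc

/-! # Uniformity in the coupling constants -/

set_option autoImplicit false

open Filter Topology Polynomial MeasureTheory Pool.Agent.Helper434.PSCplx

namespace Pool.Agent.Y662.STU

open Pool.Agent.H695R3.ST

theorem pot_abs (lam α ω : ℝ) (n : ℤ) : |pot lam α ω n| ≤ |lam| := by
  unfold pot
  split_ifs
  · exact le_rfl
  · rw [abs_zero]; exact abs_nonneg _

/-- comparison of the norms of two vectors -/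
theorem norm_le_of {φ ψ : L2} {c : ℝ} (hc : 0 ≤ c) (h : ∀ n, ‖φ n‖ ≤ c * ‖ψ n‖) :
    ‖φ‖ ≤ c * ‖ψ‖ := by
  apply le_of_sq_le_sq _ (by positivity)
  rw [mul_pow]
  refine hasSum_le (fun n => ?_) (hasSum_sq φ) ((hasSum_sq ψ).mul_left (c ^ 2))
  rw [← mul_pow]
  exact pow_le_pow_left₀ (norm_nonneg _) (h n) 2

/-- the spectrum depends continuously on the coupling -/
theorem coupling {lam lam' α ω κ : ℝ} (hκ : |lam - lam'| < κ) {H H' : L2 →L[ℂ] L2}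
    (hH : IsSchr (pot lam α ω) H) (hH' : IsSchr (pot lam' α ω) H') {E : ℝ}
    (hE : E ∈ spectrum ℝ H) : ∃ E' ∈ spectrum ℝ H', |E - E'| ≤ κ := by
  have hs := schr_sa (pot_abs lam α ω) hH
  have hs' := schr_sa (pot_abs lam' α ω) hH'
  obtain ⟨ψ, hψ0, hψ⟩ := weyl_fwd hs hE (sub_pos.2 hκ)
  refine weyl_bwd hs' hψ0 ?_
  have h1 : ‖H' ψ - H ψ‖ ≤ |lam - lam'| * ‖ψ‖ := by
    refine norm_le_of (abs_nonneg _) fun n => ?_
    rw [lp.coeFn_sub, Pi.sub_apply, hH, hH']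
    have e : ψ (n + 1) + ψ (n - 1) + (pot lam' α ω n : ℂ) * ψ n -
        (ψ (n + 1) + ψ (n - 1) + (pot lam α ω n : ℂ) * ψ n) =
        ((pot lam' α ω n - pot lam α ω n : ℝ) : ℂ) * ψ n := by
      push_cast
      ring
    rw [e, norm_mul, Complex.norm_real, Real.norm_eq_abs]
    refine mul_le_mul_of_nonneg_right ?_ (norm_nonneg _)
    unfold pot
    split_ifs
    · rw [abs_sub_comm]
    · rw [sub_zero, abs_zero]; exact abs_nonneg _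
  have h2 : H' ψ - (E : ℂ) • ψ = (H' ψ - H ψ) + (H ψ - (E : ℂ) • ψ) := by abel
  rw [h2]
  refine (norm_add_le _ _).trans ?_
  linarith

/-- `static`, uniformly near a given coupling -/
theorem static_unif {lam₀ : ℝ} (hlam : 0 < lam₀) {p q : ℕ} (hp : 0 < p) (hpq : p < q)
    (hc : Nat.Coprime p q) :
    ∃ X : Finset ℝ, ∀ η : ℝ, 0 < η → ∃ δ : ℝ, 0 < δ ∧ ∀ lam : ℝ, |lam - lam₀| < δ →
      ∀ α : ℝ, 0 < α → α < 1 → |α - (p : ℝ) / q| < δ → ∀ (ω : ℝ) (H : L2 →L[ℂ] L2),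
        IsSchr (pot lam α ω) H →
        (∀ E : ℝ, ((Dp lam₀ p q).eval E) ^ 2 ≤ 4 → ∃ E' ∈ spectrum ℝ H, |E - E'| ≤ η) ∧
        (∀ E ∈ spectrum ℝ H, (∃ E' : ℝ, ((Dp lam₀ p q).eval E') ^ 2 ≤ 4 ∧ |E - E'| ≤ η) ∨
          ∃ x ∈ X, |E - x| ≤ η) := by
  obtain ⟨X, -, hX⟩ := static (lam := lam₀) hlam.le hp hpq hc
  refine ⟨X, fun η hη => ?_⟩
  obtain ⟨δ, hδ, h⟩ := hX (η / 2) (half_pos hη)
  refine ⟨min δ (η / 2), lt_min hδ (half_pos hη), fun lam hl α h0 h1 hα ω H hH => ?_⟩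
  obtain ⟨H₀, hH₀, -⟩ := exists_schr (pot_abs lam₀ α ω)
  obtain ⟨a1, a2⟩ := h α h0 h1 (hα.trans_le (min_le_left _ _)) ω H₀ hH₀
  have hl' : |lam - lam₀| < η / 2 := hl.trans_le (min_le_right _ _)
  constructor
  · intro E hE
    obtain ⟨E₁, hE₁, h3⟩ := a1 E hE
    obtain ⟨E₂, hE₂, h4⟩ := coupling (by rw [abs_sub_comm]; exact hl') hH₀ hH hE₁
    refine ⟨E₂, hE₂, ?_⟩
    have := abs_sub_le E E₁ E₂
    linarith
  · intro E hE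
    obtain ⟨E₁, hE₁, h3⟩ := coupling hl' hH hH₀ hE
    rcases a2 E₁ hE₁ with ⟨E₂, h4, h5⟩ | ⟨x, h4, h5⟩
    · refine Or.inl ⟨E₂, h4, ?_⟩
      have := abs_sub_le E E₁ E₂
      linarith
    · refine Or.inr ⟨x, h4, ?_⟩
      have := abs_sub_le E E₁ x
      linarith

theorem unif_lower {lam₀ : ℝ} (hlam : 0 < lam₀) {p q : ℕ} (hp : 0 < p) (hpq : p < q)
    (hc : Nat.Coprime p q) :
    ∃ s r : ℝ, 0 < s ∧ 0 < r ∧ ∀ ε : ℝ, 0 < ε → ∃ δ : ℝ, 0 < δ ∧ ∀ lam : ℝ,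
      |lam - lam₀| < δ → ∀ α : ℝ, 0 < α → α < 1 →
      |α - (p : ℝ) / q| < δ → ∀ (ω : ℝ) (H : L2 →L[ℂ] L2), IsSchr (pot lam α ω) H →
        Clusters (spectrum ℝ H) ε s r q := by
  obtain ⟨X, hX⟩ := static_unif hlam hp hpq hc
  obtain ⟨z, -, hz0, hξ⟩ := Dp_zeros (lam := lam₀) hlam.ne' hp hpq hc
  obtain ⟨s, r, hs, hr, h⟩ := lower (Dp lam₀ p q) X z hz0 hξ
  refine ⟨s, r, hs, hr, fun ε hε => ?_⟩
  obtain ⟨η, hη, h1⟩ := h ε hε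
  obtain ⟨δ, hδ, h2⟩ := hX η hη
  refine ⟨δ, hδ, fun lam hl α h0 h1' hd ω H hH => ?_⟩
  obtain ⟨a1, a2⟩ := h2 lam hl α h0 h1' hd ω H hH
  exact h1 _ a1 a2

theorem unif_upper {lam₀ : ℝ} (hlam : 0 < lam₀) {p q : ℕ} (hp : 0 < p) (hpq : p < q)
    (hc : Nat.Coprime p q) {s r : ℝ} (hs : 0 < s) (hr : 0 < r) :
    ∃ ε δ : ℝ, 0 < ε ∧ 0 < δ ∧ ∀ lam : ℝ, |lam - lam₀| < δ → ∀ α : ℝ, 0 < α → α < 1 →
      |α - (p : ℝ) / q| < δ → ∀ (ω : ℝ) (H : L2 →L[ℂ] L2), IsSchr (pot lam α ω) H →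
        ∀ N : ℕ, Clusters (spectrum ℝ H) ε s r N → N ≤ q := by
  obtain ⟨X, hX⟩ := static_unif hlam hp hpq hc
  set η : ℝ := min (s / 3) (r / (8 * (X.card + 1))) with hη
  have hk : (0 : ℝ) < X.card + 1 := by positivity
  have hη0 : 0 < η := lt_min (by positivity) (by positivity)
  have h1 : η ≤ s / 3 := min_le_left _ _
  have h2 : η ≤ r / (8 * (X.card + 1)) := min_le_right _ _
  obtain ⟨δ, hδ, h⟩ := hX η hη0
  refine ⟨η, δ, hη0, hδ, fun lam hl α h0 h1' hd ω H hH N hN => ?_⟩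
  obtain ⟨a1, a2⟩ := h lam hl α h0 h1' hd ω H hH
  have hdeg : (Dp lam₀ p q).natDegree = q := (D_monic (Wp lam₀ p q) 0 (by omega)).2
  have h3 := upper (p := Dp lam₀ p q) (by rw [hdeg]; omega) X hη0 hη0.le (by linarith)
    (by linarith) (by
      rw [le_div_iff₀ (by positivity)] at h2
      nlinarith [mul_pos hη0 hk]) a1 a2 hN
  rwa [hdeg] at h3

/-- the spectra for the couplings `lam` at `α` and `lam'` at `β`, for all phases, are not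
bi-Hölder equivalent with constant `n` -/
def NotEq2 (lam lam' : ℝ) (n : ℕ) (α β : ℝ) : Prop :=
  ∀ (ω₁ ω₂ : ℝ) (H₁ H₂ : L2 →L[ℂ] L2), IsSchr (pot lam α ω₁) H₁ → IsSchr (pot lam' β ω₂) H₂ →
    ¬ Eqn n (spectrum ℝ H₁) (spectrum ℝ H₂)

theorem NotEq2.symm {lam lam' : ℝ} {n : ℕ} {α β : ℝ} (h : NotEq2 lam lam' n α β) :
    NotEq2 lam' lam n β α :=
  fun ω₁ ω₂ H₁ H₂ e1 e2 he => h ω₂ ω₁ H₂ H₁ e2 e1 he.symm

theorem unif_pair_lt {lam₀ lam₁ : ℝ} (hlam₀ : 0 < lam₀) (hlam₁ : 0 < lam₁) {p q p' q' : ℕ}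
    (hp : 0 < p) (hpq : p < q) (hc : Nat.Coprime p q) (hp' : 0 < p') (hpq' : p' < q')
    (hc' : Nat.Coprime p' q') (hqq : q' < q) (n : ℕ) :
    ∃ δ : ℝ, 0 < δ ∧ ∀ lam lam' : ℝ, |lam - lam₀| < δ → |lam' - lam₁| < δ → ∀ α β : ℝ,
      0 < α → α < 1 → 0 < β → β < 1 → |α - (p : ℝ) / q| < δ →
      |β - (p' : ℝ) / q'| < δ → NotEq2 lam lam' n α β := by
  obtain ⟨s, r, hs, hr, h1⟩ := unif_lower hlam₀ hp hpq hc
  obtain ⟨s', r', hs', hr', h2⟩ := transport n hs hr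
  obtain ⟨ε', δ', hε', hδ', h3⟩ := unif_upper hlam₁ hp' hpq' hc' hs' hr'
  obtain ⟨ε, hε, h4⟩ := h2 ε' hε'
  obtain ⟨δ, hδ, h5⟩ := h1 ε hε
  refine ⟨min δ δ', lt_min hδ hδ', fun lam lam' hl hl' α β a0 a1 b0 b1 ha hb ω₁ ω₂ H₁ H₂ e1 e2
    he => ?_⟩
  have h6 := h5 lam (hl.trans_le (min_le_left _ _)) α a0 a1 (ha.trans_le (min_le_left _ _)) ω₁ H₁ e1
  have h7 := h4 _ _ _ he h6
  have h8 := h3 lam' (hl'.trans_le (min_le_right _ _)) β b0 b1 (hb.trans_le (min_le_right _ _)) ω₂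
    H₂ e2 _ h7
  omega

theorem unif_pair {lam₀ lam₁ : ℝ} (hlam₀ : 0 < lam₀) (hlam₁ : 0 < lam₁) {p q p' q' : ℕ}
    (hp : 0 < p) (hpq : p < q) (hc : Nat.Coprime p q) (hp' : 0 < p') (hpq' : p' < q')
    (hc' : Nat.Coprime p' q') (hqq : q ≠ q') (n : ℕ) :
    ∃ δ : ℝ, 0 < δ ∧ ∀ lam lam' : ℝ, |lam - lam₀| < δ → |lam' - lam₁| < δ → ∀ α β : ℝ,
      0 < α → α < 1 → 0 < β → β < 1 → |α - (p : ℝ) / q| < δ →
      |β - (p' : ℝ) / q'| < δ → NotEq2 lam lam' n α β := by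
  rcases lt_or_gt_of_ne hqq with h | h
  · obtain ⟨δ, hδ, h1⟩ := unif_pair_lt hlam₁ hlam₀ hp' hpq' hc' hp hpq hc h n
    exact ⟨δ, hδ, fun lam lam' hl hl' α β a0 a1 b0 b1 ha hb =>
      (h1 lam' lam hl' hl β α b0 b1 a0 a1 hb ha).symm⟩
  · exact unif_pair_lt hlam₀ hlam₁ hp hpq hc hp' hpq' hc' h n

/-- a property of pairs of frequencies which holds near pairs of rational numbers with different
denominators -/
def NearProp (P : ℝ → ℝ → Prop) : Prop :=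
  ∀ x y : ℚ, 0 < x → x < 1 → 0 < y → y < 1 → x.den ≠ y.den → ∃ δ : ℝ, 0 < δ ∧ ∀ α β : ℝ,
    0 < α → α < 1 → 0 < β → β < 1 → |α - (x : ℝ)| < δ → |β - (y : ℝ)| < δ → P α β

/-- uniformity in the couplings in a compact set -/
theorem nearProp_compact {K : Set (ℝ × ℝ)} (hK : IsCompact K)
    (hpos : ∀ u ∈ K, 0 < u.1 ∧ 0 < u.2) (n : ℕ) :
    NearProp fun α β => ∀ u ∈ K, NotEq2 u.1 u.2 n α β := by
  intro x y hx0 hx1 hy0 hy1 hxy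
  have key : ∀ z : ℚ, 0 < z → z < 1 → 0 < z.num.natAbs ∧ z.num.natAbs < z.den ∧
      (z : ℝ) = (z.num.natAbs : ℝ) / z.den := by
    intro z h0 h1
    have hnum : 0 < z.num := Rat.num_pos.2 h0
    have h2 : z.num < z.den := Rat.num_lt_denom_iff.2 h1
    refine ⟨Int.natAbs_pos.2 hnum.ne', by omega, ?_⟩
    have e1 : (z : ℝ) = (z.num : ℝ) / (z.den : ℝ) := by
      exact_mod_cast (Rat.cast_def z (K := ℝ))
    have e2 : ((z.num.natAbs : ℕ) : ℤ) = z.num := Int.natAbs_of_nonneg hnum.le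
    have e3 : ((z.num.natAbs : ℕ) : ℝ) = (z.num : ℝ) := by
      rw [← Int.cast_natCast, e2]
    rw [e1, e3]
  obtain ⟨a1, a2, a3⟩ := key x hx0 hx1
  obtain ⟨b1, b2, b3⟩ := key y hy0 hy1
  rw [a3, b3]
  refine IsCompact.induction_on (p := fun S : Set (ℝ × ℝ) => ∃ δ : ℝ, 0 < δ ∧ ∀ α β : ℝ,
    0 < α → α < 1 → 0 < β → β < 1 → |α - (x.num.natAbs : ℝ) / x.den| < δ →
      |β - (y.num.natAbs : ℝ) / y.den| < δ → ∀ u ∈ S, NotEq2 u.1 u.2 n α β) hK ?_ ?_ ?_ ?_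
  · exact ⟨1, one_pos, fun _ _ _ _ _ _ _ _ u hu => absurd hu (Set.notMem_empty u)⟩
  · rintro S T hST ⟨δ, hδ, h⟩
    exact ⟨δ, hδ, fun α β e0 e1 e2 e3 e4 e5 u hu => h α β e0 e1 e2 e3 e4 e5 u (hST hu)⟩
  · rintro S T ⟨δ, hδ, h⟩ ⟨δ', hδ', h'⟩
    refine ⟨min δ δ', lt_min hδ hδ', fun α β e0 e1 e2 e3 e4 e5 u hu => ?_⟩
    rcases hu with hu | hu
    · exact h α β e0 e1 e2 e3 (e4.trans_le (min_le_left _ _)) (e5.trans_le (min_le_left _ _)) u hu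
    · exact h' α β e0 e1 e2 e3 (e4.trans_le (min_le_right _ _)) (e5.trans_le (min_le_right _ _))
        u hu
  · intro u₀ hu₀
    obtain ⟨h0, h1⟩ := hpos u₀ hu₀
    obtain ⟨δ, hδ, h⟩ := unif_pair h0 h1 a1 a2 x.reduced b1 b2 y.reduced hxy n
    refine ⟨Metric.ball u₀ δ, mem_nhdsWithin_of_mem_nhds (Metric.ball_mem_nhds _ hδ), δ, hδ,
      fun α β e0 e1 e2 e3 e4 e5 u hu => ?_⟩
    rw [Metric.mem_ball, Prod.dist_eq, max_lt_iff, Real.dist_eq, Real.dist_eq] at hu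
    exact h u.1 u.2 hu.1 hu.2 α β e0 e1 e2 e3 e4 e5

end Pool.Agent.Y662.STU
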