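import Pool.Agent.Y662.STU.Mob
import Pool.Agent.Y662.STU.Uni

/-! # Two frequencies in the tail class of a generic frequency -/

set_option autoImplicit false

open Filter Topology Polynomial MeasureTheory Pool.Agent.Helper434.PSCplx

namespace Pool.Agent.Y662.STU

open Pool.Agent.H695R3.ST
open Pool.Agent.Results.MP_e333c6_mp.SturmianNotDiffeo (gauss digit TailEquiv)

/-- the denominators of the images of a rational number under two maps -/
theorem den_ne_pair {A B C D A' B' C' D' : ℤ} (hdet : A * D - B * C = 1 ∨ A * D - B * C = -1)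
    (hdet' : A' * D' - B' * C' = 1 ∨ A' * D' - B' * C' = -1) (x : ℚ)
    (hne : (C : ℚ) * x + D ≠ 0) (hne' : (C' : ℚ) * x + D' ≠ 0)
    (h1 : (C : ℚ) * x + D ≠ C' * x + D') (h2 : (C : ℚ) * x + D ≠ -(C' * x + D')) :
    (((A : ℚ) * x + B) / (C * x + D)).den ≠ (((A' : ℚ) * x + B') / (C' * x + D')).den := by
  intro h
  have h3 := den_mob hdet x hne
  have h4 := den_mob hdet' x hne'
  rw [h] at h3
  rw [h3] at h4
  have hQ0 : (x.den : ℚ) ≠ 0 := by exact_mod_cast x.den_nz
  have hx : ∀ E F : ℤ, (E : ℚ) * x + F = ((E * x.num + F * x.den : ℤ) : ℚ) / x.den := by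
    intro E F
    have : (x.num : ℚ) = x * x.den := (Rat.mul_den_eq_num x).symm
    push_cast
    rw [this]
    field_simp
  rcases abs_eq_abs.1 h4 with h5 | h5
  · apply h1
    rw [hx, hx, h5]
  · apply h2
    rw [hx, hx, h5]
    push_cast
    ring

theorem near_mob_pair {P : ℝ → ℝ → Prop} (hP : NearProp P) {A B C D A' B' C' D' : ℤ}
    (hdet : A * D - B * C = 1 ∨ A * D - B * C = -1)
    (hdet' : A' * D' - B' * C' = 1 ∨ A' * D' - B' * C' = -1) (x : ℚ)
    (hne : (C : ℝ) * x + D ≠ 0) (hne' : (C' : ℝ) * x + D' ≠ 0)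
    (h1 : (C : ℝ) * x + D ≠ C' * x + D') (h2 : (C : ℝ) * x + D ≠ -(C' * x + D'))
    (hy0 : 0 < ((A : ℝ) * x + B) / (C * x + D)) (hy1 : ((A : ℝ) * x + B) / (C * x + D) < 1)
    (hz0 : 0 < ((A' : ℝ) * x + B') / (C' * x + D'))
    (hz1 : ((A' : ℝ) * x + B') / (C' * x + D') < 1) :
    ∃ δ : ℝ, 0 < δ ∧ ∀ t : ℝ, |t - (x : ℝ)| < δ → ∀ α β : ℝ, 0 < α → α < 1 → 0 < β → β < 1 →
      α * (C * t + D) = A * t + B → β * (C' * t + D') = A' * t + B' → P α β := by
  set y : ℚ := ((A : ℚ) * x + B) / (C * x + D) with hy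
  set z : ℚ := ((A' : ℚ) * x + B') / (C' * x + D') with hz
  have hyr : (y : ℝ) = ((A : ℝ) * x + B) / (C * x + D) := by
    rw [hy]
    push_cast
    rfl
  have hzr : (z : ℝ) = ((A' : ℝ) * x + B') / (C' * x + D') := by
    rw [hz]
    push_cast
    rfl
  have hden : y.den ≠ z.den := den_ne_pair hdet hdet' x (by exact_mod_cast hne)
    (by exact_mod_cast hne') (by exact_mod_cast h1) (by exact_mod_cast h2)
  obtain ⟨δ, hδ, h⟩ := hP y z
    (by rw [← hyr] at hy0; exact_mod_cast hy0) (by rw [← hyr] at hy1; exact_mod_cast hy1)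
    (by rw [← hzr] at hz0; exact_mod_cast hz0) (by rw [← hzr] at hz1; exact_mod_cast hz1) hden
  have near : ∀ (P Q R S : ℤ) (w : ℚ), (w : ℝ) = ((P : ℝ) * x + Q) / (R * x + S) →
      (R : ℝ) * x + S ≠ 0 → ∀ᶠ t : ℝ in 𝓝 (x : ℝ), ∀ β : ℝ,
        β * (R * t + S) = P * t + Q → |β - w| < δ := by
    intro P Q R S w hw hRS
    have hc1 : ContinuousAt (fun t : ℝ => (R : ℝ) * t + S) x := by fun_prop
    have hc2 : ContinuousAt (fun t : ℝ => ((P : ℝ) * t + Q) / (R * t + S)) x :=
      ContinuousAt.div (by fun_prop) hc1 hRS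
    have h3 : ∀ᶠ t : ℝ in 𝓝 (x : ℝ), (R : ℝ) * t + S ≠ 0 := hc1.eventually_ne hRS
    have h4 : ∀ᶠ t : ℝ in 𝓝 (x : ℝ), |((P : ℝ) * t + Q) / (R * t + S) - w| < δ := by
      rw [hw]
      exact (Metric.tendsto_nhds.1 hc2 δ hδ).mono fun t ht => by rwa [Real.dist_eq] at ht
    filter_upwards [h3, h4] with t e1 e2 β hβ
    have h8 : β = ((P : ℝ) * t + Q) / (R * t + S) := by
      rw [eq_div_iff e1]
      exact hβ
    rwa [← h8] at e2
  obtain ⟨δ', hδ', h5⟩ := Metric.eventually_nhds_iff.1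
    ((near A B C D y hyr hne).and (near A' B' C' D' z hzr hne'))
  refine ⟨δ', hδ', fun t ht α β a0 a1 b0 b1 hα hβ => ?_⟩
  obtain ⟨h6, h7⟩ := h5 (y := t) (by rw [Real.dist_eq]; exact ht)
  exact h α β a0 a1 b0 b1 (h6 α hα) (h7 β hβ)

/-- Generic frequencies and two fractional linear images. -/
theorem generic_pairs {P : ℕ → ℝ → ℝ → Prop} (hP : ∀ n, NearProp (P n)) :
    ∀ᶠ t in residual ℝ, Irrational t ∧ (∀ A B C D A' B' C' D' : ℤ,
      (A * D - B * C = 1 ∨ A * D - B * C = -1) →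
      (A' * D' - B' * C' = 1 ∨ A' * D' - B' * C' = -1) →
      (C ≠ C' ∨ D ≠ D') → (C ≠ -C' ∨ D ≠ -D') →
      ∀ α β : ℝ, 0 < α → α < 1 → 0 < β → β < 1 → α * (C * t + D) = A * t + B →
        β * (C' * t + D') = A' * t + B' → ∀ n, P n α β) := by
  have key : ∀ q : (ℤ × ℤ × ℤ × ℤ) × (ℤ × ℤ × ℤ × ℤ) × ℕ, ∀ᶠ t in residual ℝ, Irrational t →
      (q.1.1 * q.1.2.2.2 - q.1.2.1 * q.1.2.2.1 = 1 ∨
        q.1.1 * q.1.2.2.2 - q.1.2.1 * q.1.2.2.1 = -1) →
      (q.2.1.1 * q.2.1.2.2.2 - q.2.1.2.1 * q.2.1.2.2.1 = 1 ∨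
        q.2.1.1 * q.2.1.2.2.2 - q.2.1.2.1 * q.2.1.2.2.1 = -1) →
      (q.1.2.2.1 ≠ q.2.1.2.2.1 ∨ q.1.2.2.2 ≠ q.2.1.2.2.2) →
      (q.1.2.2.1 ≠ -q.2.1.2.2.1 ∨ q.1.2.2.2 ≠ -q.2.1.2.2.2) →
      ∀ α β : ℝ, 0 < α → α < 1 → 0 < β → β < 1 →
        α * (q.1.2.2.1 * t + q.1.2.2.2) = q.1.1 * t + q.1.2.1 →
        β * (q.2.1.2.2.1 * t + q.2.1.2.2.2) = q.2.1.1 * t + q.2.1.2.1 →
        P q.2.2 α β := by
    rintro ⟨⟨A, B, C, D⟩, ⟨A', B', C', D'⟩, n⟩
    simp only
    by_cases hdet : A * D - B * C = 1 ∨ A * D - B * C = -1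
    swap
    · exact Eventually.of_forall fun t _ h => absurd h hdet
    by_cases hdet' : A' * D' - B' * C' = 1 ∨ A' * D' - B' * C' = -1
    swap
    · exact Eventually.of_forall fun t _ _ h => absurd h hdet'
    by_cases hp : C ≠ C' ∨ D ≠ D'
    swap
    · exact Eventually.of_forall fun t _ _ _ h => absurd h hp
    by_cases hm : C ≠ -C' ∨ D ≠ -D'
    swap
    · exact Eventually.of_forall fun t _ _ _ _ h => absurd h hm
    set O : Set ℝ := {t | (C : ℝ) * t + D ≠ 0 ∧ (C' : ℝ) * t + D' ≠ 0 ∧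
      (0 < ((A : ℝ) * t + B) / (C * t + D) ∧ ((A : ℝ) * t + B) / (C * t + D) < 1) ∧
      0 < ((A' : ℝ) * t + B') / (C' * t + D') ∧
        ((A' : ℝ) * t + B') / (C' * t + D') < 1} with hO
    have hOo : IsOpen O := by
      rw [isOpen_iff_mem_nhds]
      rintro t ⟨h1, h2, ⟨h3, h4⟩, h5, h6⟩
      have hc1 : ContinuousAt (fun t : ℝ => (C : ℝ) * t + D) t := by fun_prop
      have hc2 : ContinuousAt (fun t : ℝ => ((A : ℝ) * t + B) / (C * t + D)) t :=
        ContinuousAt.div (by fun_prop) hc1 h1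
      have hc3 : ContinuousAt (fun t : ℝ => (C' : ℝ) * t + D') t := by fun_prop
      have hc4 : ContinuousAt (fun t : ℝ => ((A' : ℝ) * t + B') / (C' * t + D')) t :=
        ContinuousAt.div (by fun_prop) hc3 h2
      filter_upwards [hc1.eventually_ne h1, hc3.eventually_ne h2,
        hc2.eventually (lt_mem_nhds h3), hc2.eventually (gt_mem_nhds h4),
        hc4.eventually (lt_mem_nhds h5), hc4.eventually (gt_mem_nhds h6)] with s e1 e2 e3 e4 e5 e6
      exact ⟨e1, e2, ⟨e3, e4⟩, e5, e6⟩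
    set G : Set ℝ := {t | (C : ℝ) * t + D ≠ C' * t + D' ∧ (C : ℝ) * t + D ≠ -(C' * t + D')}
      with hG
    have lin : ∀ E F : ℤ, (E ≠ 0 ∨ F ≠ 0) → {t : ℝ | (E : ℝ) * t + F = 0}.Finite := by
      intro E F hEF
      by_cases hE : E = 0
      · subst hE
        have hF : (F : ℝ) ≠ 0 := by
          rcases hEF with h | h
          · exact absurd rfl h
          · exact_mod_cast h
        have : {t : ℝ | ((0 : ℤ) : ℝ) * t + F = 0} = ∅ := by
          ext t
          simp [hF]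
        rw [this]
        exact Set.finite_empty
      · have hEr : (E : ℝ) ≠ 0 := by exact_mod_cast hE
        refine (Set.finite_singleton (-(F : ℝ) / E)).subset fun t ht => ?_
        rw [Set.mem_setOf_eq] at ht
        rw [Set.mem_singleton_iff, eq_div_iff hEr]
        linarith
    have hGf : Gᶜ.Finite := by
      have f1 := lin (C - C') (D - D') (by
        rcases hp with h | h
        · exact Or.inl (sub_ne_zero.2 h)
        · exact Or.inr (sub_ne_zero.2 h))
      have f2 := lin (C + C') (D + D') (by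
        rcases hm with h | h
        · exact Or.inl (fun h' => h (by omega))
        · exact Or.inr (fun h' => h (by omega)))
      refine (f1.union f2).subset fun t ht => ?_
      rw [hG, Set.mem_compl_iff, Set.mem_setOf_eq, not_and_or, not_not, not_not] at ht
      rcases ht with h | h
      · left
        rw [Set.mem_setOf_eq]
        push_cast
        linarith
      · right
        rw [Set.mem_setOf_eq]
        push_cast
        linarith
    have hx : ∀ x : ℚ, ∃ δ : ℝ, 0 < δ ∧ ((x : ℝ) ∈ O → (x : ℝ) ∈ G →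
        ∀ t : ℝ, |t - (x : ℝ)| < δ → ∀ α β : ℝ, 0 < α → α < 1 → 0 < β → β < 1 →
          α * (C * t + D) = A * t + B → β * (C' * t + D') = A' * t + B' →
            P n α β) := by
      intro x
      by_cases h : (x : ℝ) ∈ O ∧ (x : ℝ) ∈ G
      · obtain ⟨⟨h1, h2, ⟨h3, h4⟩, h5, h6⟩, h7, h8⟩ := h
        obtain ⟨δ, hδ, h9⟩ := near_mob_pair (hP n) hdet hdet' x h1 h2 h7 h8 h3 h4 h5 h6
        exact ⟨δ, hδ, fun _ _ => h9⟩
      · exact ⟨1, one_pos, fun h1 h2 => absurd ⟨h1, h2⟩ h⟩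
    choose δ hδ0 hδ using hx
    set U : Set ℝ := ⋃ x : ℚ, ⋃ _ : (x : ℝ) ∈ O ∧ (x : ℝ) ∈ G, Metric.ball (x : ℝ) (δ x) with hU
    have hUo : IsOpen U := isOpen_iUnion fun x => isOpen_iUnion fun _ => Metric.isOpen_ball
    have hres : U ∪ interior Oᶜ ∈ residual ℝ := by
      apply residual_of_dense_open (hUo.union isOpen_interior)
      rw [dense_iff_inter_open]
      intro W hW hWne
      by_cases hWO : (W ∩ O).Nonempty
      · obtain ⟨t, ht⟩ := hWO
        have hopen : IsOpen (W ∩ O) := hW.inter hOo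
        have hopen2 : IsOpen ((W ∩ O) \ Gᶜ) := hopen.sdiff hGf.isClosed
        have hne2 : ((W ∩ O) \ Gᶜ).Nonempty := by
          have hinf : (W ∩ O).Infinite := infinite_of_mem_nhds t (hopen.mem_nhds ht)
          exact (hinf.sdiff hGf).nonempty
        obtain ⟨x, hx⟩ := (Rat.denseRange_cast (𝕜 := ℝ)).exists_mem_open hopen2 hne2
        obtain ⟨⟨hxW, hxO⟩, hxn⟩ := hx
        refine ⟨x, hxW, Or.inl ?_⟩
        simp only [hU, Set.mem_iUnion]
        exact ⟨x, ⟨hxO, not_not.1 hxn⟩, Metric.mem_ball_self (hδ0 x)⟩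
      · obtain ⟨w, hw⟩ := hWne
        refine ⟨w, hw, Or.inr ?_⟩
        rw [mem_interior]
        refine ⟨W, fun v hv hvO => hWO ⟨v, hv, hvO⟩, hW, hw⟩
    filter_upwards [hres] with t ht it _ _ _ _ α β a0 a1 b0 b1 hα hβ
    have irr_ne : ∀ P Q R S : ℤ, (P * S - Q * R = 1 ∨ P * S - Q * R = -1) →
        (R : ℝ) * t + S ≠ 0 := by
      intro P Q R S hPS h
      by_cases hR : R = 0
      · subst hR
        have hS : (S : ℝ) = 0 := by
          push_cast at h
          linarith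
        have hS' : S = 0 := by exact_mod_cast hS
        subst hS'
        omega
      · have hRr : (R : ℝ) ≠ 0 := by exact_mod_cast hR
        have h1 : t = ((-S : ℤ) : ℝ) / ((R : ℤ) : ℝ) := by
          rw [eq_div_iff hRr]
          push_cast
          linarith
        apply it
        exact ⟨((-S : ℤ) : ℚ) / (R : ℚ), by rw [h1]; push_cast; rfl⟩
    have hne := irr_ne A B C D hdet
    have hne' := irr_ne A' B' C' D' hdet'
    have hαe : α = ((A : ℝ) * t + B) / (C * t + D) := by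
      rw [eq_div_iff hne]
      exact hα
    have hβe : β = ((A' : ℝ) * t + B') / (C' * t + D') := by
      rw [eq_div_iff hne']
      exact hβ
    have htO : t ∈ O := ⟨hne, hne', ⟨by rw [← hαe]; exact a0, by rw [← hαe]; exact a1⟩,
      by rw [← hβe]; exact b0, by rw [← hβe]; exact b1⟩
    rcases ht with h | h
    · simp only [hU, Set.mem_iUnion] at h
      obtain ⟨x, ⟨h1, h2⟩, h4⟩ := h
      rw [Metric.mem_ball, Real.dist_eq] at h4
      exact hδ x h1 h2 t h4 α β a0 a1 b0 b1 hα hβ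
    · exact absurd htO (interior_subset h)
  have hall := eventually_countable_forall.2 key
  filter_upwards [eventually_residual_irrational, hall] with t hirr h
  exact ⟨hirr, fun A B C D A' B' C' D' hdet hdet' h1 h2 α β a0 a1 b0 b1 hα hβ n =>
    h ((A, B, C, D), (A', B', C', D'), n) hirr hdet hdet' h1 h2 α β a0 a1 b0 b1 hα hβ⟩

/-- two images whose denominators agree up to sign -/
theorem mob_same {A B C D A' B' : ℤ} (hdet : A * D - B * C = 1 ∨ A * D - B * C = -1)
    (hdet' : A' * D - B' * C = 1 ∨ A' * D - B' * C = -1) {t α β : ℝ}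
    (hne : (C : ℝ) * t + D ≠ 0) (a0 : 0 < α) (a1 : α < 1) (b0 : 0 < β) (b1 : β < 1)
    (hα : α * (C * t + D) = A * t + B) (hβ : β * (C * t + D) = A' * t + B') :
    β = α ∨ β = 1 - α := by
  have solve : ∀ s : ℤ, (A' - s * A) * D = (B' - s * B) * C →
      ∃ k : ℤ, A' - s * A = k * C ∧ B' - s * B = k * D := by
    intro s hs
    rcases hdet with h | h
    · refine ⟨A * (B' - s * B) - B * (A' - s * A), ?_, ?_⟩
      · linear_combination A * hs - (A' - s * A) * h
      · linear_combination B * hs - (B' - s * B) * h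
    · refine ⟨-(A * (B' - s * B) - B * (A' - s * A)), ?_, ?_⟩
      · linear_combination -A * hs + (A' - s * A) * h
      · linear_combination -B * hs + (B' - s * B) * h
  have fin : ∀ s k : ℤ, A' - s * A = k * C → B' - s * B = k * D → β = s * α + k := by
    intro s k h1 h2
    have e1 : (A' : ℝ) - s * A = k * C := by exact_mod_cast h1
    have e2 : (B' : ℝ) - s * B = k * D := by exact_mod_cast h2
    have h3 : (β - (s * α + k)) * ((C : ℝ) * t + D) = 0 := by
      linear_combination hβ - (s : ℝ) * hα + t * e1 + e2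
    rcases mul_eq_zero.1 h3 with h4 | h4
    · linarith
    · exact absurd h4 hne
  have plus : A' * D - B' * C = A * D - B * C → β = α := by
    intro h
    obtain ⟨k, h1, h2⟩ := solve 1 (by linear_combination h)
    have h3 := fin 1 k h1 h2
    push_cast at h3
    have h4 : (k : ℝ) < 1 := by linarith
    have h5 : (-1 : ℝ) < k := by linarith
    have h6 : k < 1 := by exact_mod_cast h4
    have h7 : -1 < k := by exact_mod_cast h5
    have h8 : k = 0 := by omega
    rw [h8] at h3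
    push_cast at h3
    linarith
  have minus : A' * D - B' * C = -(A * D - B * C) → β = 1 - α := by
    intro h
    obtain ⟨k, h1, h2⟩ := solve (-1) (by linear_combination h)
    have h3 := fin (-1) k h1 h2
    push_cast at h3
    have h4 : (k : ℝ) < 2 := by linarith
    have h5 : (0 : ℝ) < k := by linarith
    have h6 : k < 2 := by exact_mod_cast h4
    have h7 : 0 < k := by exact_mod_cast h5
    have h8 : k = 1 := by omega
    rw [h8] at h3
    push_cast at h3
    linarith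
  rcases hdet with h | h <;> rcases hdet' with h' | h'
  · exact Or.inl (plus (by rw [h, h']))
  · exact Or.inr (minus (by rw [h, h']))
  · exact Or.inr (minus (by rw [h, h']; norm_num))
  · exact Or.inl (plus (by rw [h, h']))

/-- **Generic frequencies, all pairs in the tail class.** -/
theorem generic_class {P : ℕ → ℝ → ℝ → Prop} (hP : ∀ n, NearProp (P n)) :
    ∀ᶠ t in residual ℝ, 0 < t → t < 1 → Irrational t ∧ ∀ α β : ℝ, Irrational α →
      Irrational β → 0 < α → α < 1 → 0 < β → β < 1 → TailEquiv t α → TailEquiv t β →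
        β ≠ α → β ≠ 1 - α → ∀ n, P n α β := by
  filter_upwards [generic_pairs hP] with t ⟨it, h⟩ t0 t1
  refine ⟨it, fun α β iα iβ a0 a1 b0 b1 ha hb h1 h2 n => ?_⟩
  obtain ⟨A, B, C, D, hdet, hα⟩ := tail_mob it iα ⟨t0, t1⟩ ⟨a0, a1⟩ ha
  obtain ⟨A', B', C', D', hdet', hβ⟩ := tail_mob it iβ ⟨t0, t1⟩ ⟨b0, b1⟩ hb
  have hne : (C : ℝ) * t + D ≠ 0 := by
    intro h3
    by_cases hC : C = 0
    · subst hC
      have hD : (D : ℝ) = 0 := by
        push_cast at h3
        linarith
      have hD' : D = 0 := by exact_mod_cast hD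
      subst hD'
      omega
    · have hRr : (C : ℝ) ≠ 0 := by exact_mod_cast hC
      have h1 : t = ((-D : ℤ) : ℝ) / ((C : ℤ) : ℝ) := by
        rw [eq_div_iff hRr]
        push_cast
        linarith
      apply it
      exact ⟨((-D : ℤ) : ℚ) / (C : ℚ), by rw [h1]; push_cast; rfl⟩
  by_cases hp : C = C' ∧ D = D'
  · obtain ⟨rfl, rfl⟩ := hp
    rcases mob_same hdet hdet' hne a0 a1 b0 b1 hα hβ with h3 | h3
    · exact absurd h3 h1
    · exact absurd h3 h2
  by_cases hm : C = -C' ∧ D = -D'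
  · obtain ⟨e1, e2⟩ := hm
    have e3 : C' = -C := by omega
    have e4 : D' = -D := by omega
    subst e3
    subst e4
    rcases mob_same (A' := -A') (B' := -B') hdet (by
      rcases hdet' with h' | h'
      · left; linear_combination h'
      · right; linear_combination h') hne a0 a1 b0 b1 hα (by
        push_cast at hβ ⊢
        linear_combination -hβ) with h3 | h3
    · exact absurd h3 h1
    · exact absurd h3 h2
  exact h A B C D A' B' C' D' hdet hdet' (by
    by_contra hc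
    rw [not_or, not_not, not_not] at hc
    exact hp hc) (by
    by_contra hc
    rw [not_or, not_not, not_not] at hc
    exact hm hc) α β a0 a1 b0 b1 hα hβ n

/-- One generic frequency for all couplings. -/
theorem generic_couplings :
    ∀ᶠ t in residual ℝ, 0 < t → t < 1 → Irrational t ∧ ∀ lam lam' : ℝ, 0 < lam → 0 < lam' →
      ∀ α β : ℝ, Irrational α → Irrational β → 0 < α → α < 1 → 0 < β → β < 1 →
        TailEquiv t α → TailEquiv t β → β ≠ α → β ≠ 1 - α → ∀ n, NotEq2 lam lam' n α β := by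
  set K : ℕ → Set (ℝ × ℝ) := fun k =>
    Set.Icc ((1 : ℝ) / (k + 1)) (k + 1) ×ˢ Set.Icc ((1 : ℝ) / (k + 1)) (k + 1) with hK
  have hP : ∀ m : ℕ, NearProp fun α β => ∀ u ∈ K m.unpair.1, NotEq2 u.1 u.2 m.unpair.2 α β := by
    intro m
    refine nearProp_compact (isCompact_Icc.prod isCompact_Icc) (fun u hu => ?_) _
    have h0 : (0 : ℝ) < 1 / ((m.unpair.1 : ℝ) + 1) := by positivity
    exact ⟨h0.trans_le hu.1.1, h0.trans_le hu.2.1⟩
  filter_upwards [generic_class hP] with t ht t0 t1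
  obtain ⟨it, h⟩ := ht t0 t1
  refine ⟨it, fun lam lam' hl hl' α β iα iβ a0 a1 b0 b1 e1 e2 e3 e4 n => ?_⟩
  have hex : ∀ x : ℝ, 0 < x → ∀ᶠ k : ℕ in atTop, x ∈ Set.Icc ((1 : ℝ) / (k + 1)) (k + 1) := by
    intro x hx
    have h1 : ∀ᶠ k : ℕ in atTop, (1 : ℝ) / (k + 1) ≤ x := by
      have := tendsto_one_div_add_atTop_nhds_zero_nat (𝕜 := ℝ)
      exact (this.eventually (gt_mem_nhds hx)).mono fun k hk => hk.le
    have h2 : ∀ᶠ k : ℕ in atTop, x ≤ (k : ℝ) :=
      tendsto_natCast_atTop_atTop.eventually (eventually_ge_atTop x)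
    filter_upwards [h1, h2] with k h3 h4
    exact ⟨h3, by linarith⟩
  obtain ⟨k, hk1, hk2⟩ := ((hex lam hl).and (hex lam' hl')).exists
  have h5 := h α β iα iβ a0 a1 b0 b1 e1 e2 e3 e4 (Nat.pair k n)
  rw [Nat.unpair_pair] at h5
  exact h5 (lam, lam') ⟨hk1, hk2⟩

end Pool.Agent.Y662.STU
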